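import Pool.Agent.P.MP_72aa19_al.Cech

/-! An abstract criterion computing `reg (I ^ k)` and `v (I ^ k)`. -/

namespace Pool.Agent.P.MP_72aa19_al

open DirectSum MvPolynomial

section init

variable {R D m : Type*} [CommSemiring R] [CommSemiring D]

theorem eval₂_homog {S : Type*} [CommSemiring S] (f : R →+* S) (t : S) (w : m → S)
    {F : MvPolynomial m R} {a : ℕ} (hF : F.IsHomogeneous a) :
    eval₂ f (fun i => t * w i) F = t ^ a * eval₂ f w F := by
  rw [eval₂_eq, eval₂_eq, Finset.mul_sum]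
  refine Finset.sum_congr rfl fun α hα => ?_
  rw [hF.degree_eq_sum_deg_support hα]
  simp only [mul_pow, Finset.prod_mul_distrib, Finset.prod_pow_eq_pow_sum]
  ring

theorem map_eval_aux {S : Type*} [CommSemiring S] (f : R →+* S) (y : m → R) (F : MvPolynomial m R) :
    f (eval y F) = eval₂ f (fun i => f (y i)) F := by
  induction F using MvPolynomial.induction_on with
  | C a => simp
  | add p q hp hq => simp [hp, hq]
  | mul_X p i hp => simp [hp]

theorem coeff_eval₂_scale (ρ : R →+* D) (u : m → D) (F : MvPolynomial m R) (α : m →₀ ℕ) :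
    coeff α (eval₂ (C.comp ρ) (fun i => C (u i) * X i) F)
      = ρ (coeff α F) * α.prod fun i e => u i ^ e := by
  classical
  induction F using MvPolynomial.induction_on' with
  | monomial β a =>
    have : eval₂ (C.comp ρ) (fun i => C (u i) * X i) (monomial β a)
        = monomial β (ρ a * β.prod fun i e => u i ^ e) := by
      rw [eval₂_monomial, monomial_eq]
      simp only [mul_pow, Finsupp.prod, Finset.prod_mul_distrib, RingHom.comp_apply, map_mul,
        map_prod, map_pow]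
      ring
    rw [this, coeff_monomial, coeff_monomial]
    split_ifs with h
    · rw [h]
    · simp
  | add p q hp hq => rw [eval₂_add, coeff_add, hp, hq, coeff_add, map_add, add_mul]

end init

variable {K R : Type*} [Field K] [CommRing R] [Algebra K R] {n : ℕ}

/-- The data from which `reg (I ^ k)` and `v (I ^ k)` are computed, `I = (z (inl i))`. -/
structure Setup (𝒜 : ℕ → Submodule K R) (x : Fin n → R) (m dd ι ζ : Type) [Fintype ι] where
  gen : Gen 𝒜 x
  z : m ⊕ dd → R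
  hz : ∀ v, z v ∈ Submodule.span K (Set.range x)
  η : ι → R
  deg : ι → ℕ
  r : ℕ
  hη : ∀ j, η j ∈ 𝒜 (deg j)
  hdeg : ∀ j, deg j ≤ r
  j₀ : ι
  hj₀ : deg j₀ = r
  hW : ∀ f, ∃ a : ι → K, f - ∑ j, a j • η j ∈ Ideal.span (Set.range z)
  ρ : ζ → R →ₐ[K] MvPolynomial dd K
  ψ : ζ → R →+* Polynomial (MvPolynomial m (MvPolynomial dd K))
  hψ : ∀ Z f, (ψ Z f).coeff 0 = C (ρ Z f)
  w : ζ → m → Polynomial (MvPolynomial m (MvPolynomial dd K))
  hw : ∀ Z i, ψ Z (z (.inl i)) = Polynomial.X * w Z i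
  u : ζ → m → MvPolynomial dd K
  hu : ∀ Z i, (w Z i).coeff 0 = C (u Z i) * X i
  hu0 : ∀ Z i, u Z i ≠ 0
  hθ : ∀ Z l, ρ Z (z (.inr l)) = X l
  hM : ∀ c : ι → MvPolynomial dd K, (∀ Z, ∑ j, c j * ρ Z (η j) = 0) → ∀ j, c j = 0
  hsep : ∀ e ≤ r + 1, ∀ g ∈ 𝒜 e, ∀ Z₀, (∀ Z, Z ≠ Z₀ → ρ Z g = 0) → ρ Z₀ g = 0
  g : ζ → R
  hg : ∀ Z, g Z ∈ 𝒜 (r + 2)
  hg0 : ∀ Z, ρ Z (g Z) ≠ 0
  hg1 : ∀ Z Z', Z' ≠ Z → ρ Z' (g Z) = 0
  i₀ : m
  Z₀ : ζ

namespace Setup

variable [IsDomain R] {𝒜 : ℕ → Submodule K R} [GradedAlgebra 𝒜] {x : Fin n → R}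
  {m dd ι ζ : Type} [Fintype ι] [Fintype m] [Fintype dd] (s : Setup 𝒜 x m dd ι ζ)

/-- The ideal. -/
def I : Ideal R := Ideal.span (Set.range fun i => s.z (.inl i))

/-- The map from the polynomial ring on the parameters. -/
noncomputable def Φ : MvPolynomial (m ⊕ dd) K →ₐ[K] R := aeval s.z

/-- Combination of the basis. -/
noncomputable def comb (c : ι → MvPolynomial (m ⊕ dd) K) : R := ∑ j, s.Φ (c j) * s.η j

set_option linter.unusedSectionVars false

theorem z_mem (v : m ⊕ dd) : s.z v ∈ 𝒜 1 := s.gen.mem_one_of_span (s.hz v)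

theorem homog_span {κ : Type*} (f : κ → m ⊕ dd) :
    (Ideal.span (Set.range fun i => s.z (f i))).IsHomogeneous 𝒜 :=
  Ideal.homogeneous_span 𝒜 _ (by rintro _ ⟨i, rfl⟩; exact ⟨1, s.z_mem _⟩)

theorem I_homog : s.I.IsHomogeneous 𝒜 := s.homog_span _

theorem proj {e : ℕ} {f : R} (hf : f ∈ 𝒜 e) :
    ∃ (a : ι → K) (h : m ⊕ dd → R), (∀ j, a j ≠ 0 → s.deg j = e) ∧
      (∀ v, h v = 0 ∨ (1 ≤ e ∧ h v ∈ 𝒜 (e - 1))) ∧
      f = ∑ j, a j • s.η j + ∑ v, s.z v * h v := by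
  classical
  obtain ⟨a, ha⟩ := s.hW f
  obtain ⟨h, hh⟩ := Ideal.mem_span_range_iff_exists_fun.1 ha
  have h1 : f = ∑ j, a j • s.η j + ∑ v, s.z v * h v := by
    simp only [mul_comm (s.z _)]
    rw [hh]; ring
  refine ⟨fun j => if s.deg j = e then a j else 0,
    fun v => if 1 ≤ e then (decompose 𝒜 (h v) (e - 1) : R) else 0, ?_, ?_, ?_⟩
  · intro j hj
    by_contra h; simp [h] at hj
  · intro v
    by_cases he : 1 ≤ e
    · right; simp [he]
    · left; simp [he]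
  · have h2 := congrArg (GradedAlgebra.proj 𝒜 e) h1
    rw [GradedAlgebra.proj_apply, decompose_of_mem_same 𝒜 hf, map_add, map_sum, map_sum] at h2
    rw [h2]
    congr 1
    · refine Finset.sum_congr rfl fun j _ => ?_
      rw [map_smul, GradedAlgebra.proj_apply]
      dsimp only
      split_ifs with hj
      · rw [decompose_of_mem_same 𝒜 (hj ▸ s.hη j)]
      · rw [decompose_of_mem_ne 𝒜 (s.hη j) hj]; simp
    · refine Finset.sum_congr rfl fun v _ => ?_
      rw [GradedAlgebra.proj_apply, coe_decompose_mul_of_left_mem 𝒜 e (s.z_mem v)]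
      dsimp only
      split_ifs <;> simp

theorem comb_add (c c' : ι → MvPolynomial (m ⊕ dd) K) :
    s.comb (fun j => c j + c' j) = s.comb c + s.comb c' := by
  simp [comb, add_mul, Finset.sum_add_distrib]

theorem comb_sub (c c' : ι → MvPolynomial (m ⊕ dd) K) :
    s.comb (fun j => c j - c' j) = s.comb c - s.comb c' := by
  simp [comb, sub_mul, Finset.sum_sub_distrib]

theorem comb_mul (p : MvPolynomial (m ⊕ dd) K) (c : ι → MvPolynomial (m ⊕ dd) K) :
    s.comb (fun j => p * c j) = s.Φ p * s.comb c := by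
  simp [comb, Finset.mul_sum, mul_assoc]

theorem comb_zero : s.comb (fun _ => 0) = 0 := by simp [comb]

theorem exists_comb_homog (e : ℕ) : ∀ f ∈ 𝒜 e, ∃ c, f = s.comb c := by
  induction e using Nat.strong_induction_on with
  | _ e ih =>
    intro f hf
    obtain ⟨a, h, -, hh, rfl⟩ := s.proj hf
    have h1 : ∀ v, ∃ c, h v = s.comb c := by
      intro v
      rcases hh v with h0 | ⟨he, h0⟩
      · exact ⟨fun _ => 0, by rw [h0, comb_zero]⟩
      · exact ih (e - 1) (by omega) _ h0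
    choose c hc using h1
    refine ⟨fun j => C (a j) + ∑ v, X v * c v j, ?_⟩
    rw [comb_add]
    congr 1
    · simp [comb, Φ, Algebra.smul_def]
    · simp only [hc, comb, map_sum, Finset.sum_mul, Finset.mul_sum]
      rw [Finset.sum_comm]
      simp [Φ, mul_assoc]

theorem exists_comb (f : R) : ∃ c, f = s.comb c := by
  induction f using Decomposition.inductionOn 𝒜 with
  | zero => exact ⟨fun _ => 0, s.comb_zero.symm⟩
  | homogeneous f => exact s.exists_comb_homog _ _ f.2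
  | add f f' h h' =>
    obtain ⟨c, rfl⟩ := h
    obtain ⟨c', rfl⟩ := h'
    exact ⟨_, (s.comb_add c c').symm⟩

theorem top_mem (k : ℕ) : ∀ e : ℕ, k + s.r ≤ e → ∀ f ∈ 𝒜 e,
    f ∈ s.I ^ k ⊔ Ideal.span (Set.range fun l => s.z (.inr l)) := by
  induction k with
  | zero => intro e _ f _; simp
  | succ k ih =>
    intro e he f hf
    obtain ⟨a, h, ha, hh, rfl⟩ := s.proj hf
    have h1 : ∀ j, a j = 0 := by
      intro j
      by_contra h0
      have := ha j h0
      have := s.hdeg j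
      omega
    simp only [h1, zero_smul, Finset.sum_const_zero, zero_add]
    refine Ideal.sum_mem _ fun v _ => ?_
    rcases hh v with h0 | ⟨-, h0⟩
    · simp [h0]
    rcases v with i | l
    · obtain ⟨p, hp, q, hq, hpq⟩ := Submodule.mem_sup.1 (ih (e - 1) (by omega) _ h0)
      rw [← hpq, mul_add]
      refine add_mem (Ideal.mem_sup_left ?_) (Ideal.mem_sup_right (Ideal.mul_mem_left _ _ hq))
      rw [pow_succ']
      exact Ideal.mul_mem_mul (Ideal.subset_span ⟨i, rfl⟩) hp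
    · exact Ideal.mem_sup_right (Ideal.mul_mem_right _ _ (Ideal.subset_span ⟨l, rfl⟩))

theorem ψ_eval (Z : ζ) {F : MvPolynomial m R} {a : ℕ} (hF : F.IsHomogeneous a) :
    s.ψ Z (eval (fun i => s.z (.inl i)) F) = Polynomial.X ^ a * eval₂ (s.ψ Z) (s.w Z) F := by
  refine Eq.trans ?_ (eval₂_homog (s.ψ Z) Polynomial.X (s.w Z) hF)
  rw [map_eval_aux]
  simp only [s.hw]

theorem init_iff (Z : ζ) {F : MvPolynomial m R} {a : ℕ} (hF : F.IsHomogeneous a) :
    Polynomial.X ^ (a + 1) ∣ s.ψ Z (eval (fun i => s.z (.inl i)) F) ↔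
      ∀ α, s.ρ Z (coeff α F) = 0 := by
  rw [s.ψ_eval Z hF, pow_succ, mul_dvd_mul_iff_left (pow_ne_zero _ Polynomial.X_ne_zero),
    Polynomial.X_dvd_iff]
  have h1 : (eval₂ (s.ψ Z) (s.w Z) F).coeff 0
      = eval₂ (C.comp (s.ρ Z : R →+* MvPolynomial dd K)) (fun i => C (s.u Z i) * X i) F := by
    rw [← Polynomial.constantCoeff_apply, ← coe_eval₂Hom, map_eval₂Hom, coe_eval₂Hom]
    congr 1
    · ext1 f; simp [s.hψ]
    · ext1 i; simp [s.hu]
  rw [h1, MvPolynomial.ext_iff]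
  refine forall_congr' fun α => ?_
  rw [coeff_eval₂_scale, coeff_zero, mul_eq_zero]
  have : (α.prod fun i e => s.u Z i ^ e) ≠ 0 :=
    Finset.prod_ne_zero_iff.2 fun i _ => pow_ne_zero _ (s.hu0 Z i)
  exact ⟨fun h => h.resolve_right this, Or.inl⟩

theorem X_dvd_iff (Z : ζ) (f : R) : Polynomial.X ∣ s.ψ Z f ↔ s.ρ Z f = 0 := by
  rw [Polynomial.X_dvd_iff, s.hψ, C_eq_zero]

theorem ρ_y (Z : ζ) (i : m) : s.ρ Z (s.z (.inl i)) = 0 := by
  rw [← X_dvd_iff, s.hw]; exact dvd_mul_right _ _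

theorem dvd_of_mem_pow (Z : ζ) {k : ℕ} {f : R} (hf : f ∈ s.I ^ k) :
    Polynomial.X ^ k ∣ s.ψ Z f := by
  obtain ⟨F, hF, rfl⟩ := (Ideal.mem_span_pow_iff_exists_isHomogeneous _ _).1 hf
  rw [s.ψ_eval Z hF]; exact dvd_mul_right _ _

theorem ρ_aeval (Z : ζ) (p : MvPolynomial dd K) :
    s.ρ Z (aeval (fun l => s.z (.inr l)) p) = p := by
  have : (s.ρ Z).comp (aeval (fun l => s.z (.inr l))) = AlgHom.id K _ := by
    ext1 l; simp [s.hθ]
  exact DFunLike.congr_fun this p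

theorem mem_I_of_ρ {f : R} (hf : ∀ Z, s.ρ Z f = 0) : f ∈ s.I := by
  obtain ⟨c, rfl⟩ := s.exists_comb f
  let σ : MvPolynomial (m ⊕ dd) K →ₐ[K] MvPolynomial dd K := aeval (Sum.elim 0 X)
  have h1 : ∀ Z p, s.ρ Z (s.Φ p) = σ p := by
    intro Z p
    have : (s.ρ Z).comp s.Φ = σ := by
      ext1 v; rcases v with i | l
      · simp [σ, Φ, s.ρ_y]
      · simp [σ, Φ, s.hθ]
    exact DFunLike.congr_fun this p
  have h2 := s.hM (fun j => σ (c j)) fun Z => by
    have := hf Z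
    simpa [comb, h1] using this
  have h3 : ∀ p, Ideal.Quotient.mkₐ K s.I (s.Φ p)
      = Ideal.Quotient.mkₐ K s.I (aeval (fun l => s.z (.inr l)) (σ p)) := by
    intro p
    have : (Ideal.Quotient.mkₐ K s.I).comp s.Φ
        = (Ideal.Quotient.mkₐ K s.I).comp ((aeval (fun l => s.z (.inr l))).comp σ) := by
      ext1 v; rcases v with i | l
      · have : s.z (.inl i) ∈ s.I := Ideal.subset_span ⟨i, rfl⟩
        simpa [σ, Φ, Ideal.Quotient.eq_zero_iff_mem] using this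
      · simp [σ, Φ]
    exact DFunLike.congr_fun this p
  refine Ideal.sum_mem _ fun j _ => Ideal.mul_mem_right _ _ ?_
  have := h3 (c j)
  rw [h2 j] at this
  simpa [Ideal.Quotient.eq_zero_iff_mem] using this

theorem eval_mem_mul {F : MvPolynomial m R} {a : ℕ} (hF : F.IsHomogeneous a) {J : Ideal R}
    (hJ : ∀ α, coeff α F ∈ J) : eval (fun i => s.z (.inl i)) F ∈ J * s.I ^ a := by
  rw [F.as_sum, map_sum]
  refine Ideal.sum_mem _ fun α hα => ?_
  have : (monomial α (coeff α F) : MvPolynomial m R) = C (coeff α F) * monomial α 1 := by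
    rw [C_mul_monomial, mul_one]
  rw [this, map_mul, eval_C]
  refine Ideal.mul_mem_mul (hJ α) ((Ideal.mem_span_pow_iff_exists_isHomogeneous _ _).2
    ⟨_, isHomogeneous_monomial _ ?_, rfl⟩)
  by_contra h
  exact (mem_support_iff.1 hα) (hF.coeff_eq_zero h)

theorem mem_pow_iff (k : ℕ) (f : R) : f ∈ s.I ^ k ↔ ∀ Z, Polynomial.X ^ k ∣ s.ψ Z f := by
  refine ⟨fun h Z => s.dvd_of_mem_pow Z h, ?_⟩
  induction k with
  | zero => simp
  | succ k ih =>
    intro h
    have h1 := ih fun Z => (pow_dvd_pow _ (Nat.le_succ k)).trans (h Z)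
    obtain ⟨F, hF, rfl⟩ := (Ideal.mem_span_pow_iff_exists_isHomogeneous _ _).1 h1
    rw [pow_succ']
    exact s.eval_mem_mul hF fun α => s.mem_I_of_ρ fun Z => (s.init_iff Z hF).1 (h Z) α

theorem quasi_regular {F : MvPolynomial m R} (hF : eval (fun i => s.z (.inl i)) F = 0) {a : ℕ}
    (ha : ∀ α : m →₀ ℕ, α.degree < a → coeff α F = 0) (Z : ζ) (α : m →₀ ℕ)
    (hα : α.degree = a) : s.ρ Z (coeff α F) = 0 := by
  classical
  have h1 : eval (fun i => s.z (.inl i)) (F - homogeneousComponent a F) ∈ s.I ^ (a + 1) := by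
    rw [(F - homogeneousComponent a F).as_sum, map_sum]
    refine Ideal.sum_mem _ fun β hβ => ?_
    have h2 : a + 1 ≤ β.degree := by
      have h3 := mem_support_iff.1 hβ
      rw [coeff_sub, coeff_homogeneousComponent] at h3
      by_contra h4
      split_ifs at h3 with h5
      · simp at h3
      · exact h3 (by rw [ha β (by omega)]; simp)
    exact Ideal.pow_le_pow_right h2 ((Ideal.mem_span_pow_iff_exists_isHomogeneous _ _).2
      ⟨_, isHomogeneous_monomial _ rfl, rfl⟩)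
  rw [map_sub, hF, zero_sub, neg_mem_iff] at h1
  have := (s.init_iff Z (homogeneousComponent_isHomogeneous a F)).1 (s.dvd_of_mem_pow Z h1) α
  rwa [coeff_homogeneousComponent, if_pos hα] at this

theorem comb_eq_zero {c : ι → MvPolynomial (m ⊕ dd) K} (hc : s.comb c = 0) (j : ι) : c j = 0 := by
  let Φ' : MvPolynomial dd K →ₐ[K] R := aeval (fun l => s.z (.inr l))
  have h1 : ∀ p, s.Φ p = eval (fun i => s.z (.inl i))
      (map (Φ' : MvPolynomial dd K →+* R) (sumAlgEquiv K m dd p)) := by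
    intro p
    induction p using MvPolynomial.induction_on with
    | C a => simp [Φ, Φ']
    | add p q hp hq => simp only [map_add, hp, hq]
    | mul_X p v hp =>
      simp only [map_mul, hp]
      rcases v with i | l <;> simp [Φ, Φ']
  let F : MvPolynomial m R :=
    ∑ j, map (Φ' : MvPolynomial dd K →+* R) (sumAlgEquiv K m dd (c j)) * C (s.η j)
  have hF : eval (fun i => s.z (.inl i)) F = 0 := by
    rw [← hc]; simp [F, comb, h1]
  have hcoeff : ∀ α, coeff α F = ∑ j, Φ' (coeff α (sumAlgEquiv K m dd (c j))) * s.η j := by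
    intro α
    simp only [F, coeff_sum]
    refine Finset.sum_congr rfl fun j _ => ?_
    rw [mul_comm, coeff_C_mul, coeff_map, mul_comm]; rfl
  have h2 : ∀ a : ℕ, ∀ α : m →₀ ℕ, α.degree = a → ∀ j,
      coeff α (sumAlgEquiv K m dd (c j)) = 0 := by
    intro a
    induction a using Nat.strong_induction_on with
    | _ a ih =>
      intro α hα
      refine s.hM _ fun Z => ?_
      have := s.quasi_regular hF (a := a) (fun β hβ => by
        rw [hcoeff]; simp [ih _ hβ β rfl]) Z α hα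
      rw [hcoeff, map_sum] at this
      simpa [Φ', s.ρ_aeval] using this
  have h3 : sumAlgEquiv K m dd (c j) = 0 := by
    ext1 α; simp [h2 _ α rfl j]
  simpa using h3

theorem comb_mem_map {𝔞 : Ideal (MvPolynomial (m ⊕ dd) K)} {c : ι → MvPolynomial (m ⊕ dd) K} :
    s.comb c ∈ 𝔞.map s.Φ ↔ ∀ j, c j ∈ 𝔞 := by
  constructor
  · intro h
    have h1 : ∀ f ∈ 𝔞.map s.Φ, ∀ g : R, ∃ c' : ι → MvPolynomial (m ⊕ dd) K,
        (∀ j, c' j ∈ 𝔞) ∧ g * f = s.comb c' := by
      intro f hf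
      induction hf using Submodule.span_induction with
      | mem f hf =>
        obtain ⟨p, hp, rfl⟩ := hf
        intro g
        obtain ⟨c', rfl⟩ := s.exists_comb g
        exact ⟨fun j => p * c' j, fun j => 𝔞.mul_mem_right _ hp, by rw [comb_mul, mul_comm]⟩
      | zero => exact fun g => ⟨fun _ => 0, fun _ => zero_mem _, by simp [comb_zero]⟩
      | add f f' _ _ h h' =>
        intro g
        obtain ⟨c₁, h₁, e₁⟩ := h g
        obtain ⟨c₂, h₂, e₂⟩ := h' g
        exact ⟨_, fun j => add_mem (h₁ j) (h₂ j), by rw [comb_add, mul_add, e₁, e₂]⟩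
      | smul a f _ h =>
        intro g
        obtain ⟨c₁, h₁, e₁⟩ := h (g * a)
        exact ⟨c₁, h₁, by rw [← e₁, smul_eq_mul, mul_assoc]⟩
    obtain ⟨c', hc', e⟩ := h1 _ h 1
    intro j
    have := s.comb_eq_zero (c := fun j => c j - c' j) (by rw [comb_sub, ← e]; simp) j
    rw [sub_eq_zero.1 this]; exact hc' j
  · intro h
    exact Ideal.sum_mem _ fun j _ => Ideal.mul_mem_right _ _ (Ideal.mem_map_of_mem _ (h j))

/-- The extension of a monomial ideal in the parameters. -/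
noncomputable def J (S : Set (m ⊕ dd →₀ ℕ)) : Ideal R :=
  (Ideal.span ((fun t => monomial t (1 : K)) '' S)).map s.Φ

theorem Φ_monomial_mem (t : m ⊕ dd →₀ ℕ) : s.Φ (monomial t 1) ∈ 𝒜 t.degree := by
  rw [Φ, aeval_monomial, map_one, one_mul, Finsupp.degree_apply, Finsupp.prod]
  refine SetLike.prod_mem_graded 𝒜 _ _ fun v _ => ?_
  simpa using SetLike.pow_mem_graded (t v) (s.z_mem v)

theorem J_homog (S : Set (m ⊕ dd →₀ ℕ)) : (s.J S).IsHomogeneous 𝒜 := by
  rw [J, Ideal.map_span]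
  refine Ideal.homogeneous_span 𝒜 _ ?_
  rintro _ ⟨_, ⟨t, -, rfl⟩, rfl⟩
  exact ⟨_, s.Φ_monomial_mem t⟩

theorem J_insert (S : Set (m ⊕ dd →₀ ℕ)) (v : m ⊕ dd) :
    s.J (insert (Finsupp.single v 1) S) = s.J S ⊔ Ideal.span {s.z v} := by
  rw [J, J, Set.image_insert_eq, Ideal.span_insert, Ideal.map_sup, sup_comm, Ideal.map_span,
    Ideal.map_span (s := {_}), Set.image_singleton]
  congr 3
  simp [Φ, aeval_monomial]

theorem J_reg {S : Set (m ⊕ dd →₀ ℕ)} {v : m ⊕ dd} (hS : ∀ t ∈ S, t v = 0) (f : R)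
    (hf : s.z v * f ∈ s.J S) : f ∈ s.J S := by
  classical
  obtain ⟨c, rfl⟩ := s.exists_comb f
  have h1 : s.z v = s.Φ (X v) := by simp [Φ]
  rw [h1, ← comb_mul, J, comb_mem_map] at hf
  rw [J, comb_mem_map]
  intro j
  have h2 := mem_ideal_span_monomial_image.1 (hf j)
  refine mem_ideal_span_monomial_image.2 fun β hβ => ?_
  obtain ⟨t, ht, htβ⟩ := h2 (Finsupp.single v 1 + β) (by
    rw [mem_support_iff, coeff_X_mul]; exact mem_support_iff.1 hβ)
  refine ⟨t, ht, fun v' => ?_⟩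
  have := htβ v'
  by_cases hv : v = v'
  · subst hv; simp [hS t ht]
  · simpa [Finsupp.single_apply, hv] using this

theorem rv_iff (S : Set (m ⊕ dd →₀ ℕ)) (V : Finset (m ⊕ dd)) (hS : ∀ t ∈ S, ∀ v ∈ V, t v = 0)
    (ρ : ℤ) : (∀ (i : ℕ) (d : ℤ), ρ < d + i → RV 𝒜 x (s.J S) i d) ↔
      ∀ (i : ℕ) (d : ℤ), ρ < d + i →
        RV 𝒜 x (s.J (S ∪ (fun v => Finsupp.single v 1) '' V)) i d := by
  classical
  induction V using Finset.induction_on with
  | empty => simp
  | insert v V hv ih =>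
    rw [ih fun t ht v' hv' => hS t ht v' (Finset.mem_insert_of_mem hv'), Finset.coe_insert,
      Set.image_insert_eq, Set.union_insert, J_insert]
    have hreg : ∀ t ∈ S ∪ (fun v => Finsupp.single v 1) '' (V : Set (m ⊕ dd)), t v = 0 := by
      rintro t (ht | ⟨v', hv', rfl⟩)
      · exact hS t ht v (Finset.mem_insert_self _ _)
      · have : v' ≠ v := fun h => hv (h ▸ hv')
        simp [this]
    exact ⟨s.gen.rv_sup (s.J_homog _) (s.z_mem v) (s.J_reg hreg),
      s.gen.rv_of_sup (s.J_homog _) (s.hz v) (s.J_reg hreg)⟩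

theorem z_mem_J {S : Set (m ⊕ dd →₀ ℕ)} {v : m ⊕ dd} (h : Finsupp.single v 1 ∈ S) :
    s.z v ∈ s.J S := by
  have h1 : s.z v = s.Φ (monomial (Finsupp.single v 1) 1) := by simp [Φ, aeval_monomial]
  rw [h1]
  exact Ideal.mem_map_of_mem _ (Ideal.subset_span ⟨_, h, rfl⟩)

theorem J_mono {S S' : Set (m ⊕ dd →₀ ℕ)} (h : S ⊆ S') : s.J S ≤ s.J S' :=
  Ideal.map_mono (Ideal.span_mono (Set.image_mono h))

theorem rv_bot : ∀ (i : ℕ) (d : ℤ), (s.r : ℤ) < d + i → RV 𝒜 x ⊥ i d := by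
  have h0 : s.J ∅ = ⊥ := by simp [J]
  rw [← h0, s.rv_iff ∅ Finset.univ (by simp)]
  refine s.gen.rv_of_top fun e he f hf => ?_
  refine (sup_le ?_ ?_ : s.I ^ 1 ⊔ Ideal.span (Set.range fun l => s.z (.inr l)) ≤ _)
    (s.top_mem 1 e (by omega) f hf)
  · rw [pow_one, I, Ideal.span_le]
    rintro _ ⟨i, rfl⟩
    exact s.z_mem_J (Or.inr ⟨_, by simp, rfl⟩)
  · rw [Ideal.span_le]
    rintro _ ⟨i, rfl⟩
    exact s.z_mem_J (Or.inr ⟨_, by simp, rfl⟩)

/-- Exponents of the monomials of degree `k` in the generators of `I`. -/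
def expo (m dd : Type) (k : ℕ) : Set (m ⊕ dd →₀ ℕ) :=
  Finsupp.mapDomain Sum.inl '' {α : m →₀ ℕ | α.degree = k}

theorem Φ_mapDomain (α : m →₀ ℕ) : s.Φ (monomial (α.mapDomain Sum.inl) 1)
    = eval (fun i => s.z (.inl i)) (monomial α 1) := by
  rw [← rename_monomial, Φ, aeval_rename, aeval_monomial, eval_monomial]
  simp

theorem J_expo (k : ℕ) : s.J (expo m dd k) = s.I ^ k := by
  apply le_antisymm
  · rw [J, Ideal.map_span, Ideal.span_le]
    rintro _ ⟨_, ⟨_, ⟨α, hα, rfl⟩, rfl⟩, rfl⟩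
    rw [SetLike.mem_coe, Φ_mapDomain]
    exact (Ideal.mem_span_pow_iff_exists_isHomogeneous _ _).2
      ⟨_, isHomogeneous_monomial _ hα, rfl⟩
  · intro f hf
    obtain ⟨F, hF, rfl⟩ := (Ideal.mem_span_pow_iff_exists_isHomogeneous _ _).1 hf
    rw [F.as_sum, map_sum]
    refine Ideal.sum_mem _ fun α hα => ?_
    have : (monomial α (coeff α F) : MvPolynomial m R) = C (coeff α F) * monomial α 1 := by
      rw [C_mul_monomial, mul_one]
    rw [this, map_mul, eval_C, ← Φ_mapDomain]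
    refine Ideal.mul_mem_left _ _ (Ideal.mem_map_of_mem _ (Ideal.subset_span ⟨_, ⟨α, ?_, rfl⟩, rfl⟩))
    by_contra h
    exact (mem_support_iff.1 hα) (hF.coeff_eq_zero h)

theorem expo_inr {k : ℕ} : ∀ t ∈ expo m dd k, ∀ v ∈ (Finset.univ.map ⟨Sum.inr, Sum.inr_injective⟩ :
    Finset (m ⊕ dd)), t v = 0 := by
  rintro _ ⟨α, -, rfl⟩ v hv
  obtain ⟨l, -, rfl⟩ := Finset.mem_map.1 hv
  exact Finsupp.mapDomain_notin_range _ _ (by simp)

theorem top_J (k : ℕ) (e : ℕ) (he : (k : ℤ) + s.r - 1 < e) (f : R) (hf : f ∈ 𝒜 e) :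
    f ∈ s.J (expo m dd k ∪ (fun v => Finsupp.single v 1) ''
      (Finset.univ.map ⟨Sum.inr, Sum.inr_injective⟩ : Finset (m ⊕ dd))) := by
  refine (sup_le ?_ ?_ : s.I ^ k ⊔ Ideal.span (Set.range fun l => s.z (.inr l)) ≤ _)
    (s.top_mem k e (by omega) f hf)
  · rw [← J_expo]; exact s.J_mono Set.subset_union_left
  · rw [Ideal.span_le]
    rintro _ ⟨l, rfl⟩
    exact s.z_mem_J (Or.inr ⟨_, by simp, rfl⟩)

theorem rv_pow (k : ℕ) :
    ∀ (i : ℕ) (d : ℤ), (k : ℤ) + s.r - 1 < d + i → RV 𝒜 x (s.I ^ k) i d := by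
  rw [← J_expo, s.rv_iff _ _ expo_inr]
  exact s.gen.rv_of_top (s.top_J k)

theorem vanishes {k : ℕ} (hk : 1 ≤ k) (i : ℕ) (d : ℤ) (h : (k : ℤ) + s.r < d + i) :
    CechVanishes 𝒜 x (s.I ^ k) i d :=
  vanishes_of_rv (s.rv_bot i d (by omega)) fun i' hi' => s.rv_pow k i' d (by omega)

theorem not_vanishes {k : ℕ} (hk : 2 ≤ k) :
    ¬ ∀ (i : ℕ) (d : ℤ), (k : ℤ) + s.r - 1 < d + i → CechVanishes 𝒜 x (s.I ^ k) i d := by
  classical
  intro h
  have h1 : ∀ (i : ℕ) (d : ℤ), (k : ℤ) + s.r - 2 < d + i → RV 𝒜 x (s.I ^ k) i d := by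
    intro i d hd
    by_cases h2 : (s.r : ℤ) < d + i
    · exact s.gen.rv_of_vanishes (s.rv_bot i d h2) (h _ _ (by push_cast; omega))
    · omega
  rw [← J_expo, s.rv_iff _ _ expo_inr] at h1
  have h2 : s.z (.inl s.i₀) ^ (k - 1) * s.η s.j₀ ∈ 𝒜 (k - 1 + s.r) := by
    refine SetLike.mul_mem_graded ?_ (s.hj₀ ▸ s.hη s.j₀)
    simpa using SetLike.pow_mem_graded (k - 1) (s.z_mem (.inl s.i₀))
  have h3 := s.gen.mem_of_rv (s.top_J k) (h1 0 _ (by push_cast; omega)) h2
  have h4 : s.z (.inl s.i₀) ^ (k - 1) * s.η s.j₀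
      = s.comb (Pi.single s.j₀ (monomial (Finsupp.single (.inl s.i₀) (k - 1)) 1)) := by
    rw [comb, Finset.sum_eq_single s.j₀]
    · rw [Pi.single_eq_same, ← X_pow_eq_monomial]; simp [Φ]
    · intro j _ hj; simp [hj]
    · simp
  rw [h4, J, comb_mem_map] at h3
  have h5 := mem_ideal_span_monomial_image.1 (h3 s.j₀) (Finsupp.single (.inl s.i₀) (k - 1))
    (by simp)
  obtain ⟨t, ht | ⟨v, hv, rfl⟩, hle⟩ := h5
  · obtain ⟨α, hα, rfl⟩ := ht
    have := Finsupp.degree_mono hle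
    rw [Finsupp.degree_mapDomain, Finsupp.degree_single, hα] at this
    omega
  · obtain ⟨l, -, rfl⟩ := Finset.mem_map.1 hv
    have := hle (.inr l)
    simp at this

theorem reg_eq {k : ℕ} (hk : 2 ≤ k) : reg 𝒜 x (s.I ^ k) = ((k + s.r : ℕ) : ℝ) := by
  apply le_antisymm
  · refine iSup_le fun i => iSup_le fun d => iSup_le fun h => ?_
    have : ¬ (k : ℤ) + s.r < d + i := fun h' => h (s.vanishes (by omega) i d h')
    have h2 : d + i ≤ ((k + s.r : ℕ) : ℤ) := by push_cast; omega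
    exact_mod_cast h2
  · have := s.not_vanishes hk
    push Not at this
    obtain ⟨i, d, hd, h⟩ := this
    refine le_iSup_of_le i (le_iSup_of_le d (le_iSup_of_le h ?_))
    have h2 : ((k + s.r : ℕ) : ℤ) ≤ d + i := by push_cast; omega
    exact_mod_cast h2

theorem not_X_dvd_w (Z : ζ) (i : m) : ¬ Polynomial.X ∣ s.w Z i := by
  rw [Polynomial.X_dvd_iff, s.hu]
  exact mul_ne_zero (by simpa using s.hu0 Z i) (X_ne_zero _)

theorem witness_colon {k : ℕ} (hk : 1 ≤ k) :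
    (s.I ^ k).colon {s.z (.inl s.i₀) ^ (k - 1) * s.g s.Z₀} = RingHom.ker (s.ρ s.Z₀) := by
  obtain ⟨k, rfl⟩ := Nat.exists_eq_add_of_le' hk
  ext h
  rw [Submodule.mem_colon_singleton, smul_eq_mul, mem_pow_iff, RingHom.mem_ker,
    Nat.add_sub_cancel]
  have h1 : ∀ Z, s.ψ Z (h * (s.z (.inl s.i₀) ^ k * s.g s.Z₀))
      = Polynomial.X ^ k * (s.ψ Z h * (s.w Z s.i₀ ^ k * s.ψ Z (s.g s.Z₀))) := by
    intro Z
    rw [map_mul, map_mul, map_pow, s.hw, mul_pow]; ring
  simp only [h1, pow_succ, mul_dvd_mul_iff_left (pow_ne_zero k Polynomial.X_ne_zero)]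
  have hp : Prime (Polynomial.X : Polynomial (MvPolynomial m (MvPolynomial dd K))) :=
    Polynomial.prime_X
  constructor
  · intro H
    rcases hp.dvd_or_dvd (H s.Z₀) with h2 | h2
    · exact (s.X_dvd_iff _ _).1 h2
    rcases hp.dvd_or_dvd h2 with h3 | h3
    · exact absurd (hp.dvd_of_dvd_pow h3) (s.not_X_dvd_w _ _)
    · exact absurd ((s.X_dvd_iff _ _).1 h3) (s.hg0 _)
  · intro H Z
    by_cases hZ : Z = s.Z₀
    · subst hZ; exact ((s.X_dvd_iff _ _).2 H).mul_right _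
    · exact (((s.X_dvd_iff _ _).2 (s.hg1 _ _ hZ)).mul_left _).mul_left _

theorem degree_ge {k : ℕ} (hk : 1 ≤ k) {d : ℕ} {f : R} (hf : f ∈ 𝒜 d)
    (hp : ((s.I ^ k).colon {f}).IsPrime) : k + s.r + 1 ≤ d := by
  classical
  obtain ⟨k, rfl⟩ := Nat.exists_eq_add_of_le' hk
  have hX : Prime (Polynomial.X : Polynomial (MvPolynomial m (MvPolynomial dd K))) :=
    Polynomial.prime_X
  have hmem : ∀ h, h ∈ (s.I ^ (k + 1)).colon {f} ↔
      ∀ Z, Polynomial.X ^ (k + 1) ∣ s.ψ Z h * s.ψ Z f := by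
    intro h
    rw [Submodule.mem_colon_singleton, smul_eq_mul, mem_pow_iff]
    simp only [map_mul]
  have hI : ∀ h ∈ s.I, h ∈ (s.I ^ (k + 1)).colon {f} := by
    intro h hh
    refine hp.mem_of_pow_mem (k + 1) ?_
    rw [Submodule.mem_colon_singleton, smul_eq_mul]
    exact Ideal.mul_mem_right _ _ (Ideal.pow_mem_pow hh _)
  obtain ⟨Z₁, hZ₁⟩ : ∃ Z, ¬ Polynomial.X ^ (k + 1) ∣ s.ψ Z f := by
    by_contra h
    push Not at h
    exact hp.ne_top ((Ideal.eq_top_iff_one _).2 ((hmem 1).2 fun Z => (h Z).mul_left _))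
  have hgood : ∀ Z, s.g Z ∈ (s.I ^ (k + 1)).colon {f} → Polynomial.X ^ (k + 1) ∣ s.ψ Z f := by
    intro Z h
    refine hX.pow_dvd_of_dvd_mul_left _ (fun h' => s.hg0 Z ((s.X_dvd_iff _ _).1 h')) ?_
    exact (hmem _).1 h Z
  have hothers : ∀ Z, Z ≠ Z₁ → Polynomial.X ^ (k + 1) ∣ s.ψ Z f := by
    intro Z hZ
    have h1 : s.g Z * s.g Z₁ ∈ s.I := s.mem_I_of_ρ fun Z' => by
      rw [map_mul]
      by_cases h : Z' = Z
      · rw [s.hg1 Z₁ Z' (h ▸ hZ), mul_zero]
      · rw [s.hg1 Z Z' h, zero_mul]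
    rcases hp.mem_or_mem (hI _ h1) with h2 | h2
    · exact hgood Z h2
    · exact absurd (hgood Z₁ h2) hZ₁
  have hfk : f ∈ s.I ^ k := by
    rw [mem_pow_iff]
    intro Z
    have h1 := (hmem _).1 (hI _ (Ideal.subset_span ⟨s.i₀, rfl⟩)) Z
    rw [s.hw, pow_succ', mul_assoc, mul_dvd_mul_iff_left Polynomial.X_ne_zero] at h1
    exact hX.pow_dvd_of_dvd_mul_left _ (s.not_X_dvd_w Z _) h1
  obtain ⟨F, hF, hFf⟩ := (Ideal.mem_span_pow_iff_exists_isHomogeneous _ _).1 hfk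
  by_contra hd
  let F' : MvPolynomial m R := ∑ α ∈ F.support,
    monomial α (if k ≤ d then (decompose 𝒜 (coeff α F) (d - k) : R) else 0)
  have hdeg : ∀ α ∈ F.support, α.degree = k := by
    intro α hα
    by_contra h
    exact (mem_support_iff.1 hα) (hF.coeff_eq_zero h)
  have hF' : F'.IsHomogeneous k :=
    IsHomogeneous.sum _ _ _ fun α hα => isHomogeneous_monomial _ (hdeg α hα)
  have hF'f : eval (fun i => s.z (.inl i)) F' = f := by
    have h2 := congrArg (GradedAlgebra.proj 𝒜 d) hFf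
    rw [GradedAlgebra.proj_apply 𝒜 d f, decompose_of_mem_same 𝒜 hf, F.as_sum, map_sum,
      map_sum] at h2
    rw [← h2, map_sum]
    refine Finset.sum_congr rfl fun α hα => ?_
    have h3 : (α.prod fun i e => s.z (.inl i) ^ e) ∈ 𝒜 k := by
      rw [← hdeg α hα, Finsupp.degree_apply, Finsupp.prod]
      refine SetLike.prod_mem_graded 𝒜 _ _ fun v _ => ?_
      simpa using SetLike.pow_mem_graded (α v) (s.z_mem (.inl v))
    rw [eval_monomial, eval_monomial, GradedAlgebra.proj_apply,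
      coe_decompose_mul_of_right_mem 𝒜 d h3]
    split_ifs <;> simp
  have hco : ∀ α, coeff α F' ∈ 𝒜 (d - k) := by
    intro α
    simp only [F', coeff_sum, coeff_monomial]
    refine Submodule.sum_mem _ fun β _ => ?_
    split_ifs <;> simp
  apply hZ₁
  rw [← hF'f, s.init_iff Z₁ hF']
  intro α
  refine s.hsep (d - k) (by omega) _ (hco α) Z₁ fun Z hZ => ?_
  exact (s.init_iff Z hF').1 (by rw [hF'f]; exact hothers Z hZ) α

theorem v_eq {k : ℕ} (hk : 1 ≤ k) : vNumber 𝒜 (s.I ^ k) = ((k + s.r + 1 : ℕ) : ℝ) := by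
  apply le_antisymm
  · have h2 : s.z (.inl s.i₀) ^ (k - 1) * s.g s.Z₀ ∈ 𝒜 (k + s.r + 1) := by
      have h3 : s.z (.inl s.i₀) ^ (k - 1) ∈ 𝒜 (k - 1) := by
        simpa using SetLike.pow_mem_graded (k - 1) (s.z_mem (.inl s.i₀))
      have := SetLike.mul_mem_graded h3 (s.hg s.Z₀)
      convert this using 2
      omega
    refine iInf_le_of_le _ (iInf_le_of_le _ (iInf_le_of_le h2 (iInf_le_of_le ?_ le_rfl)))
    rw [s.witness_colon hk]
    exact RingHom.ker_isPrime _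
  · refine le_iInf fun d => le_iInf fun f => le_iInf fun hf => le_iInf fun hp => ?_
    exact_mod_cast s.degree_ge hk hf hp

theorem I_ne_top : s.I ≠ ⊤ := by
  intro h
  have h1 : (1 : R) ∈ s.I ^ 1 := by rw [pow_one, h]; trivial
  have := s.dvd_of_mem_pow s.Z₀ h1
  rw [pow_one, X_dvd_iff] at this
  simp at this

end Setup

end Pool.Agent.P.MP_72aa19_al
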