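import Pool.Agent.P.MP_72aa19_al.Sign

/-! Long exact sequence arguments for the graded Cech complex, written for cochains. -/

namespace Pool.Agent.P.MP_72aa19_al

open DirectSum

variable {K R : Type*} [Field K] [CommRing R] [Algebra K R] {n : ℕ}

section gradeZ

variable {𝒜 : ℕ → Submodule K R}

theorem mem_gradeZ_nat {e : ℕ} {f : R} : f ∈ gradeZ 𝒜 (e : ℤ) ↔ f ∈ 𝒜 e := by
  simp [gradeZ]

theorem mem_gradeZ_iff {d : ℤ} {f : R} :
    f ∈ gradeZ 𝒜 d ↔ f = 0 ∨ ∃ e : ℕ, (e : ℤ) = d ∧ f ∈ 𝒜 e := by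
  unfold gradeZ
  split_ifs with h
  · constructor
    · intro hf; exact Or.inr ⟨d.toNat, by omega, hf⟩
    · rintro (rfl | ⟨e, rfl, hf⟩)
      · exact zero_mem _
      · simpa using hf
  · simp only [Submodule.mem_bot]
    constructor
    · exact Or.inl
    · rintro (h1 | ⟨e, rfl, _⟩)
      · exact h1
      · omega

theorem gradeZ_mul [GradedAlgebra 𝒜] {a b : ℤ} {f g : R} (hf : f ∈ gradeZ 𝒜 a)
    (hg : g ∈ gradeZ 𝒜 b) : f * g ∈ gradeZ 𝒜 (a + b) := by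
  rcases mem_gradeZ_iff.1 hf with rfl | ⟨e, rfl, hf⟩
  · simp
  rcases mem_gradeZ_iff.1 hg with rfl | ⟨e', rfl, hg⟩
  · simp
  exact mem_gradeZ_iff.2 (Or.inr ⟨e + e', by push_cast; ring, SetLike.mul_mem_graded hf hg⟩)

/-- Splitting a homogeneous element of `J + (θ)`. -/
theorem split_sup [GradedAlgebra 𝒜] {J : Ideal R} (hJ : J.IsHomogeneous 𝒜) {θ : R}
    (hθ : θ ∈ 𝒜 1) {d : ℤ} {f : R} (hf : f ∈ J ⊔ Ideal.span {θ}) (hd : f ∈ gradeZ 𝒜 d) :
    ∃ g ∈ J, g ∈ gradeZ 𝒜 d ∧ ∃ h ∈ gradeZ 𝒜 (d - 1), f = g + θ * h := by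
  rcases mem_gradeZ_iff.1 hd with rfl | ⟨e, rfl, hd⟩
  · exact ⟨0, zero_mem _, zero_mem _, 0, zero_mem _, by simp⟩
  obtain ⟨g, hg, h, hh, rfl⟩ := Submodule.mem_sup.1 hf
  obtain ⟨h, rfl⟩ := Ideal.mem_span_singleton'.1 hh
  have h1 : (decompose 𝒜 (g + h * θ) e : R) = g + h * θ := decompose_of_mem_same 𝒜 hd
  rw [decompose_add, DirectSum.add_apply, Submodule.coe_add, mul_comm h θ,
    coe_decompose_mul_of_left_mem 𝒜 e hθ] at h1
  refine ⟨decompose 𝒜 g e, hJ e hg, mem_gradeZ_nat.2 (SetLike.coe_mem _), ?_⟩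
  split_ifs at h1 with he
  · refine ⟨decompose 𝒜 h (e - 1), ?_, by rw [mul_comm h θ]; exact h1.symm⟩
    have : ((e : ℤ) - 1) = ((e - 1 : ℕ) : ℤ) := by omega
    rw [this]
    exact mem_gradeZ_nat.2 (SetLike.coe_mem _)
  · exact ⟨0, zero_mem _, by rw [mul_comm h θ, ← h1]; simp⟩

end gradeZ

variable [IsDomain R] {𝒜 : ℕ → Submodule K R} [GradedAlgebra 𝒜] {x : Fin n → R}

/-- Standing hypotheses on the generators. -/
structure Gen (𝒜 : ℕ → Submodule K R) (x : Fin n → R) : Prop where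
  deg : ∀ i, x i ∈ 𝒜 1
  ne : ∀ i, x i ≠ 0


theorem Gen.prod_mem (hx : Gen 𝒜 x) (S : Finset (Fin n)) : (∏ i ∈ S, x i) ∈ 𝒜 S.card := by
  have := SetLike.prod_mem_graded 𝒜 (fun _ => 1) x (F := S) (fun i _ => hx.deg i)
  simpa using this

theorem Gen.pow_mem (hx : Gen 𝒜 x) (S : Finset (Fin n)) (t : ℕ) :
    (∏ i ∈ S, x i) ^ t ∈ gradeZ 𝒜 (t * S.card) := by
  have := SetLike.pow_mem_graded t (hx.prod_mem S)
  have h2 : ((t : ℤ) * S.card) = ((t • S.card : ℕ) : ℤ) := by simp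
  rw [h2]; exact mem_gradeZ_nat.2 this

omit [GradedAlgebra 𝒜] in
theorem Gen.prod_ne (hx : Gen 𝒜 x) (S : Finset (Fin n)) :
    algebraMap R (FractionRing R) (∏ i ∈ S, x i) ≠ 0 := by
  rw [Ne, IsFractionRing.to_map_eq_zero_iff]
  exact Finset.prod_ne_zero_iff.2 fun i _ => hx.ne i

omit [GradedAlgebra 𝒜] in
theorem Gen.mem_piece (hx : Gen 𝒜 x) {J : Ideal R} {S : Finset (Fin n)} {d : ℤ}
    {u : FractionRing R} :
    u ∈ cechPiece 𝒜 x J S d ↔ ∃ t : ℕ, ∃ f ∈ J, f ∈ gradeZ 𝒜 (d + t * S.card) ∧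
      u * algebraMap R (FractionRing R) ((∏ i ∈ S, x i) ^ t)
        = algebraMap R (FractionRing R) f := by
  have h := hx.prod_ne S
  constructor
  · rintro ⟨t, f, hf, hd, rfl⟩
    exact ⟨t, f, hf, hd, by rw [map_pow]; field_simp⟩
  · rintro ⟨t, f, hf, hd, hu⟩
    refine ⟨t, f, hf, hd, ?_⟩
    rw [← hu, map_pow]; field_simp

theorem Gen.mem_piece_ge (hx : Gen 𝒜 x) {J : Ideal R} {S : Finset (Fin n)} {d : ℤ}
    {u : FractionRing R} (hu : u ∈ cechPiece 𝒜 x J S d) :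
    ∃ t₀ : ℕ, ∀ t, t₀ ≤ t → ∃ f ∈ J, f ∈ gradeZ 𝒜 (d + t * S.card) ∧
      u * algebraMap R (FractionRing R) ((∏ i ∈ S, x i) ^ t)
        = algebraMap R (FractionRing R) f := by
  obtain ⟨t₀, f, hf, hd, hu⟩ := hx.mem_piece.1 hu
  refine ⟨t₀, fun t ht => ?_⟩
  obtain ⟨s, rfl⟩ := Nat.exists_eq_add_of_le ht
  refine ⟨f * (∏ i ∈ S, x i) ^ s, J.mul_mem_right _ hf, ?_, ?_⟩
  · have := gradeZ_mul hd (hx.pow_mem S s)
    convert this using 2
    push_cast; ring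
  · rw [pow_add, map_mul, map_mul, ← mul_assoc, hu]

omit [GradedAlgebra 𝒜] in
theorem piece_zero (J : Ideal R) (S : Finset (Fin n)) (d : ℤ) :
    (0 : FractionRing R) ∈ cechPiece 𝒜 x J S d :=
  ⟨0, 0, zero_mem _, zero_mem _, by simp⟩

theorem Gen.piece_add (hx : Gen 𝒜 x) {J : Ideal R} {S : Finset (Fin n)} {d : ℤ}
    {u v : FractionRing R} (hu : u ∈ cechPiece 𝒜 x J S d) (hv : v ∈ cechPiece 𝒜 x J S d) :
    u + v ∈ cechPiece 𝒜 x J S d := by
  obtain ⟨a, ha⟩ := hx.mem_piece_ge hu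
  obtain ⟨b, hb⟩ := hx.mem_piece_ge hv
  obtain ⟨f, hf, hfd, hu⟩ := ha (a + b) (by omega)
  obtain ⟨g, hg, hgd, hv⟩ := hb (a + b) (by omega)
  exact hx.mem_piece.2 ⟨a + b, f + g, add_mem hf hg, add_mem hfd hgd,
    by rw [add_mul, hu, hv, map_add]⟩

omit [GradedAlgebra 𝒜] in
theorem piece_neg {J : Ideal R} {S : Finset (Fin n)} {d : ℤ}
    {u : FractionRing R} (hu : u ∈ cechPiece 𝒜 x J S d) : -u ∈ cechPiece 𝒜 x J S d := by
  obtain ⟨t, f, hf, hd, rfl⟩ := hu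
  exact ⟨t, -f, neg_mem hf, neg_mem hd, by rw [map_neg, neg_div]⟩

theorem Gen.piece_sub (hx : Gen 𝒜 x) {J : Ideal R} {S : Finset (Fin n)} {d : ℤ}
    {u v : FractionRing R} (hu : u ∈ cechPiece 𝒜 x J S d) (hv : v ∈ cechPiece 𝒜 x J S d) :
    u - v ∈ cechPiece 𝒜 x J S d := by
  rw [sub_eq_add_neg]; exact hx.piece_add hu (piece_neg hv)

theorem Gen.piece_sum (hx : Gen 𝒜 x) {J : Ideal R} {S : Finset (Fin n)} {d : ℤ} {ι : Type*}
    (s : Finset ι) {u : ι → FractionRing R} (hu : ∀ i ∈ s, u i ∈ cechPiece 𝒜 x J S d) :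
    ∑ i ∈ s, u i ∈ cechPiece 𝒜 x J S d :=
  Finset.sum_induction u (· ∈ cechPiece 𝒜 x J S d) (fun _ _ => hx.piece_add)
    (piece_zero J S d) hu

omit [GradedAlgebra 𝒜] in
theorem piece_sgn {J : Ideal R} {S : Finset (Fin n)} {d : ℤ} (T : Finset (Fin n)) (j : Fin n)
    {u : FractionRing R} (hu : u ∈ cechPiece 𝒜 x J S d) :
    sgn (FractionRing R) T j * u ∈ cechPiece 𝒜 x J S d := by
  unfold sgn
  rcases neg_one_pow_eq_or (FractionRing R) (T.filter (· < j)).card with h | h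
  · rw [h, one_mul]; exact hu
  · rw [h, neg_one_mul]; exact piece_neg hu

omit [GradedAlgebra 𝒜] in
theorem piece_mono {J J' : Ideal R} (h : J ≤ J') {S : Finset (Fin n)} {d : ℤ}
    {u : FractionRing R} (hu : u ∈ cechPiece 𝒜 x J S d) : u ∈ cechPiece 𝒜 x J' S d := by
  obtain ⟨t, f, hf, hd, rfl⟩ := hu
  exact ⟨t, f, h hf, hd, rfl⟩

theorem piece_mul {J : Ideal R} {S : Finset (Fin n)} {d e : ℤ} {r : R} (hr : r ∈ gradeZ 𝒜 e)
    {u : FractionRing R} (hu : u ∈ cechPiece 𝒜 x J S d) :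
    algebraMap R (FractionRing R) r * u ∈ cechPiece 𝒜 x J S (d + e) := by
  obtain ⟨t, f, hf, hd, rfl⟩ := hu
  refine ⟨t, r * f, J.mul_mem_left _ hf, ?_, by rw [map_mul, mul_div_assoc]⟩
  have := gradeZ_mul hr hd
  convert this using 2; ring

theorem piece_mul_of_mem {J : Ideal R} {S : Finset (Fin n)} {d e : ℤ} {r : R}
    (hr : r ∈ gradeZ 𝒜 e) (hrJ : r ∈ J)
    {u : FractionRing R} (hu : u ∈ cechPiece 𝒜 x ⊤ S d) :
    algebraMap R (FractionRing R) r * u ∈ cechPiece 𝒜 x J S (d + e) := by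
  obtain ⟨t, f, hf, hd, rfl⟩ := hu
  refine ⟨t, r * f, J.mul_mem_right _ hrJ, ?_, by rw [map_mul, mul_div_assoc]⟩
  have := gradeZ_mul hr hd
  convert this using 2; ring

theorem Gen.piece_erase (hx : Gen 𝒜 x) {J : Ideal R} {T : Finset (Fin n)} {j : Fin n}
    (hj : j ∈ T) {d : ℤ} {u : FractionRing R} (hu : u ∈ cechPiece 𝒜 x J (T.erase j) d) :
    u ∈ cechPiece 𝒜 x J T d := by
  obtain ⟨t, f, hf, hd, hu⟩ := hx.mem_piece.1 hu
  refine hx.mem_piece.2 ⟨t, f * x j ^ t, J.mul_mem_right _ hf, ?_, ?_⟩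
  · have h1 : x j ^ t ∈ gradeZ 𝒜 (t : ℤ) := by
      have := SetLike.pow_mem_graded t (hx.deg j)
      exact mem_gradeZ_nat.2 (by simpa using this)
    have := gradeZ_mul hd h1
    convert this using 2
    rw [← Finset.card_erase_add_one hj]; push_cast; ring
  · rw [← Finset.prod_erase_mul T x hj, mul_pow, map_mul, ← mul_assoc, hu, map_mul]

theorem Gen.piece_insert (hx : Gen 𝒜 x) {J : Ideal R} {S : Finset (Fin n)} {j : Fin n}
    (hj : j ∉ S) {d : ℤ} {u : FractionRing R} (hu : u ∈ cechPiece 𝒜 x J (insert j S) d) :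
    ∀ᶠ N : ℕ in Filter.atTop,
      algebraMap R (FractionRing R) (x j ^ N) * u ∈ cechPiece 𝒜 x J S (d + N) := by
  obtain ⟨t₀, h⟩ := hx.mem_piece_ge hu
  refine Filter.eventually_atTop.2 ⟨t₀, fun t ht => ?_⟩
  obtain ⟨f, hf, hd, hu⟩ := h t ht
  refine hx.mem_piece.2 ⟨t, f, hf, ?_, ?_⟩
  · convert hd using 2
    rw [Finset.card_insert_of_notMem hj]; push_cast; ring
  · rw [← hu, Finset.prod_insert hj, mul_pow, map_mul]; ring

theorem Gen.cechD_mem (hx : Gen 𝒜 x) {J : Ideal R} {d : ℤ}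
    {c : Finset (Fin n) → FractionRing R} {T : Finset (Fin n)}
    (hc : ∀ S, S.card + 1 = T.card → c S ∈ cechPiece 𝒜 x J S d) :
    cechD c T ∈ cechPiece 𝒜 x J T d := by
  rw [cechD_eq]
  exact hx.piece_sum _ fun j hj => piece_sgn _ _
    (hx.piece_erase hj (hc _ (Finset.card_erase_add_one hj)))

omit [GradedAlgebra 𝒜] in
theorem piece_bot {S : Finset (Fin n)} {d : ℤ} {u : FractionRing R}
    (hu : u ∈ cechPiece 𝒜 x ⊥ S d) : u = 0 := by
  obtain ⟨t, f, hf, _, rfl⟩ := hu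
  rw [Ideal.mem_bot.1 hf]; simp

/-- Cancelling a nonzero divisor modulo `J`. -/
theorem Gen.piece_cancel (hx : Gen 𝒜 x) {J : Ideal R} {θ : R} (hreg : ∀ f, θ * f ∈ J → f ∈ J)
    {S : Finset (Fin n)} {d e : ℤ} {u : FractionRing R} (hu : u ∈ cechPiece 𝒜 x ⊤ S d)
    (hθu : algebraMap R (FractionRing R) θ * u ∈ cechPiece 𝒜 x J S e) :
    u ∈ cechPiece 𝒜 x J S d := by
  obtain ⟨a, ha⟩ := hx.mem_piece_ge hu
  obtain ⟨b, hb⟩ := hx.mem_piece_ge hθu
  obtain ⟨f, -, hfd, hu⟩ := ha (a + b) (by omega)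
  obtain ⟨g, hg, -, hv⟩ := hb (a + b) (by omega)
  refine hx.mem_piece.2 ⟨a + b, f, hreg f ?_, hfd, hu⟩
  have : θ * f = g := by
    apply IsFractionRing.injective R (FractionRing R)
    rw [map_mul, ← hu, ← hv]; ring
  rwa [this]

theorem piece_split {J : Ideal R} (hJ : J.IsHomogeneous 𝒜) {θ : R}
    (hθ : θ ∈ 𝒜 1) {S : Finset (Fin n)} {d : ℤ} {u : FractionRing R}
    (hu : u ∈ cechPiece 𝒜 x (J ⊔ Ideal.span {θ}) S (d + 1)) :
    ∃ v ∈ cechPiece 𝒜 x ⊤ S d,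
      u - algebraMap R (FractionRing R) θ * v ∈ cechPiece 𝒜 x J S (d + 1) := by
  obtain ⟨t, f, hf, hd, rfl⟩ := hu
  obtain ⟨g, hg, hgd, h, hhd, rfl⟩ := split_sup hJ hθ hf hd
  refine ⟨_, ⟨t, h, Submodule.mem_top, ?_, rfl⟩, t, g, hg, hgd, ?_⟩
  · convert hhd using 2; ring
  · rw [map_add, map_mul]; ring

/-- `c` is a boundary modulo `J` in cohomological degree `i`, internal degree `d`. -/
def Bd (𝒜 : ℕ → Submodule K R) (x : Fin n → R) (J : Ideal R) (i : ℕ) (d : ℤ)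
    (c : Finset (Fin n) → FractionRing R) : Prop :=
  ∃ b : Finset (Fin n) → FractionRing R,
    (∀ S, S.card + 1 = i → b S ∈ cechPiece 𝒜 x ⊤ S d) ∧
      ∀ T, T.card = i → c T - cechD b T ∈ cechPiece 𝒜 x J T d

/-- `c` is a cocycle of `R / J`. -/
def Cc (𝒜 : ℕ → Submodule K R) (x : Fin n → R) (J : Ideal R) (i : ℕ) (d : ℤ)
    (c : Finset (Fin n) → FractionRing R) : Prop :=
  (∀ S, S.card = i → c S ∈ cechPiece 𝒜 x ⊤ S d) ∧
    ∀ T, T.card = i + 1 → cechD c T ∈ cechPiece 𝒜 x J T d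

/-- Vanishing of `H^i(R / J)_d`. -/
def RV (𝒜 : ℕ → Submodule K R) (x : Fin n → R) (J : Ideal R) (i : ℕ) (d : ℤ) : Prop :=
  ∀ c, Cc 𝒜 x J i d c → Bd 𝒜 x J i d c

omit [GradedAlgebra 𝒜] in
theorem Bd.congr {J : Ideal R} {i : ℕ} {d d' : ℤ} {c c' : Finset (Fin n) → FractionRing R}
    (hc : Bd 𝒜 x J i d c) (hd : d = d') (h : ∀ S, c S = c' S) : Bd 𝒜 x J i d' c' := by
  obtain rfl : c = c' := funext h
  exact hd ▸ hc

theorem Cc.mul {J : Ideal R} {i : ℕ} {d e : ℤ} {c : Finset (Fin n) → FractionRing R}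
    (hc : Cc 𝒜 x J i d c) {r : R} (hr : r ∈ gradeZ 𝒜 e) :
    Cc 𝒜 x J i (d + e) (fun S => algebraMap R (FractionRing R) r * c S) :=
  ⟨fun S hS => piece_mul hr (hc.1 S hS), fun T hT => by
    rw [cechD_mul]; exact piece_mul hr (hc.2 T hT)⟩

theorem Bd.mul {J : Ideal R} {i : ℕ} {d e : ℤ} {c : Finset (Fin n) → FractionRing R}
    (hc : Bd 𝒜 x J i d c) {r : R} (hr : r ∈ gradeZ 𝒜 e) :
    Bd 𝒜 x J i (d + e) (fun S => algebraMap R (FractionRing R) r * c S) := by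
  obtain ⟨b, hb, hcb⟩ := hc
  refine ⟨fun S => algebraMap R (FractionRing R) r * b S, fun S hS => piece_mul hr (hb S hS),
    fun T hT => ?_⟩
  rw [cechD_mul, ← mul_sub]
  exact piece_mul hr (hcb T hT)

omit [GradedAlgebra 𝒜] in
theorem Bd.zero (J : Ideal R) (i : ℕ) (d : ℤ) : Bd 𝒜 x J i d (fun _ => 0) :=
  ⟨fun _ => 0, fun S _ => piece_zero _ _ _, fun T _ => by
    rw [cechD_zero, sub_zero]; exact piece_zero _ _ _⟩

theorem Bd.add (hx : Gen 𝒜 x) {J : Ideal R} {i : ℕ} {d : ℤ}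
    {c c' : Finset (Fin n) → FractionRing R}
    (hc : Bd 𝒜 x J i d c) (hc' : Bd 𝒜 x J i d c') : Bd 𝒜 x J i d (fun S => c S + c' S) := by
  obtain ⟨b, hb, hcb⟩ := hc
  obtain ⟨b', hb', hcb'⟩ := hc'
  refine ⟨fun S => b S + b' S, fun S hS => hx.piece_add (hb S hS) (hb' S hS), fun T hT => ?_⟩
  rw [cechD_add]
  have := hx.piece_add (hcb T hT) (hcb' T hT)
  convert this using 1; ring

theorem Gen.kill_gen (hx : Gen 𝒜 x) {J : Ideal R} {i : ℕ} {d : ℤ}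
    {c : Finset (Fin n) → FractionRing R} (hc : Cc 𝒜 x J i d c) (j : Fin n) :
    ∃ N : ℕ, Bd 𝒜 x J i (d + N) (fun S => algebraMap R (FractionRing R) (x j ^ N) * c S) := by
  have h1 : ∀ S : Finset (Fin n), ∀ᶠ N : ℕ in Filter.atTop, j ∉ S →
      (S.card + 1 = i → algebraMap R (FractionRing R) (x j ^ N) * c (insert j S)
        ∈ cechPiece 𝒜 x ⊤ S (d + N)) ∧
      (S.card = i → algebraMap R (FractionRing R) (x j ^ N) * cechD c (insert j S)
        ∈ cechPiece 𝒜 x J S (d + N)) := by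
    intro S
    by_cases hj : j ∈ S
    · exact Filter.Eventually.of_forall fun N h => absurd hj h
    have hcard := Finset.card_insert_of_notMem hj
    have h2 : ∀ᶠ N : ℕ in Filter.atTop, (S.card + 1 = i →
        algebraMap R (FractionRing R) (x j ^ N) * c (insert j S)
        ∈ cechPiece 𝒜 x ⊤ S (d + N)) := by
      by_cases hS : S.card + 1 = i
      · exact (hx.piece_insert hj (hc.1 _ (hcard.trans hS))).mono fun N h _ => h
      · exact Filter.Eventually.of_forall fun N h => absurd h hS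
    have h3 : ∀ᶠ N : ℕ in Filter.atTop, (S.card = i →
        algebraMap R (FractionRing R) (x j ^ N) * cechD c (insert j S)
        ∈ cechPiece 𝒜 x J S (d + N)) := by
      by_cases hS : S.card = i
      · exact (hx.piece_insert hj (hc.2 _ (by rw [hcard, hS]))).mono fun N h _ => h
      · exact Filter.Eventually.of_forall fun N h => absurd h hS
    exact (h2.and h3).mono fun N h _ => h
  obtain ⟨N, hN⟩ := (Filter.eventually_all.2 h1).exists
  refine ⟨N, htpy j (fun S => algebraMap R (FractionRing R) (x j ^ N) * c S), fun S hS => ?_,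
    fun T hT => ?_⟩
  · unfold htpy
    split_ifs with hj
    · exact piece_zero _ _ _
    · exact piece_sgn _ _ ((hN S hj).1 hS)
  · rw [htpy_spec j (fun S => algebraMap R (FractionRing R) (x j ^ N) * c S) T]
    unfold htpy
    split_ifs with hj
    · exact piece_zero _ _ _
    · rw [cechD_mul]
      exact piece_sgn _ _ ((hN T hj).2 hT)

theorem Gen.mem_one_of_span (hx : Gen 𝒜 x) {θ : R} (hθ : θ ∈ Submodule.span K (Set.range x)) :
    θ ∈ 𝒜 1 :=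
  (Submodule.span_le.2 (by rintro _ ⟨i, rfl⟩; exact hx.deg i)) hθ

theorem pow_mem_gradeZ {θ : R} (hθ : θ ∈ 𝒜 1) (N : ℕ) : θ ^ N ∈ gradeZ 𝒜 (N : ℤ) := by
  have := SetLike.pow_mem_graded N hθ
  exact mem_gradeZ_nat.2 (by simpa using this)

theorem Gen.kill_span (hx : Gen 𝒜 x) {J : Ideal R} {i : ℕ} {d : ℤ}
    {c : Finset (Fin n) → FractionRing R} (hc : Cc 𝒜 x J i d c) {θ : R}
    (hθ : θ ∈ Submodule.span K (Set.range x)) :
    ∃ N : ℕ, Bd 𝒜 x J i (d + N) (fun S => algebraMap R (FractionRing R) (θ ^ N) * c S) := by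
  induction hθ using Submodule.span_induction with
  | mem θ h => obtain ⟨j, rfl⟩ := h; exact hx.kill_gen hc j
  | zero => exact ⟨1, by simpa using Bd.zero J i _⟩
  | smul a θ hθ ih =>
    obtain ⟨N, hN⟩ := ih
    refine ⟨N, ?_⟩
    have h0 : algebraMap K R (a ^ N) ∈ gradeZ 𝒜 ((0 : ℕ) : ℤ) :=
      mem_gradeZ_nat.2 (SetLike.algebraMap_mem_graded 𝒜 _)
    refine (hN.mul h0).congr (by simp) fun S => ?_
    rw [Algebra.smul_def, mul_pow, map_mul, ← map_pow (algebraMap K R), mul_assoc]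
  | add θ₁ θ₂ h₁ h₂ ih₁ ih₂ =>
    obtain ⟨N₁, hN₁⟩ := ih₁
    obtain ⟨N₂, hN₂⟩ := ih₂
    have d₁ := hx.mem_one_of_span h₁
    have d₂ := hx.mem_one_of_span h₂
    refine ⟨N₁ + N₂, ?_⟩
    have key : ∀ s : Finset ℕ, (∀ m ∈ s, m ≤ N₁ + N₂) → Bd 𝒜 x J i (d + (N₁ + N₂ : ℕ))
        (fun S => algebraMap R (FractionRing R)
          (∑ m ∈ s, θ₁ ^ m * θ₂ ^ (N₁ + N₂ - m) * ((N₁ + N₂).choose m : R)) * c S) := by
      intro s
      induction s using Finset.induction_on with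
      | empty => intro _; simpa using Bd.zero J i _
      | insert m s hm ih =>
        intro hs
        have ih := ih fun m' h => hs m' (Finset.mem_insert_of_mem h)
        have hm' := hs m (Finset.mem_insert_self _ _)
        have h0 : (((N₁ + N₂).choose m : ℕ) : R) ∈ gradeZ 𝒜 ((0 : ℕ) : ℤ) :=
          mem_gradeZ_nat.2 (SetLike.natCast_mem_graded 𝒜 _)
        have hterm : Bd 𝒜 x J i (d + (N₁ + N₂ : ℕ)) (fun S => algebraMap R (FractionRing R)
            (θ₁ ^ m * θ₂ ^ (N₁ + N₂ - m) * ((N₁ + N₂).choose m : R)) * c S) := by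
          by_cases h : N₁ ≤ m
          · have := hN₁.mul (gradeZ_mul (gradeZ_mul (pow_mem_gradeZ d₁ (m - N₁))
              (pow_mem_gradeZ d₂ (N₁ + N₂ - m))) h0)
            refine this.congr (by omega) fun S => ?_
            rw [← mul_assoc, ← map_mul]
            congr 2
            have : θ₁ ^ m = θ₁ ^ (m - N₁) * θ₁ ^ N₁ := by rw [← pow_add]; congr 1; omega
            rw [this]; ring
          · have := hN₂.mul (gradeZ_mul (gradeZ_mul (pow_mem_gradeZ d₁ m)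
              (pow_mem_gradeZ d₂ (N₁ - m))) h0)
            refine this.congr (by omega) fun S => ?_
            rw [← mul_assoc, ← map_mul]
            congr 2
            have : θ₂ ^ (N₁ + N₂ - m) = θ₂ ^ (N₁ - m) * θ₂ ^ N₂ := by
              rw [← pow_add]; congr 1; omega
            rw [this]; ring
        refine (Bd.add hx hterm ih).congr rfl fun S => ?_
        rw [Finset.sum_insert hm, map_add, add_mul]
    rw [add_pow]
    exact key _ fun m hm => by have := Finset.mem_range.1 hm; omega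

theorem Gen.descend (hx : Gen 𝒜 x) {J : Ideal R} (hJ : J.IsHomogeneous 𝒜) {θ : R}
    (hθ : θ ∈ 𝒜 1) (hreg : ∀ f, θ * f ∈ J → f ∈ J) {i : ℕ} {d : ℤ}
    (hRV : ∀ i', i' + 1 = i → RV 𝒜 x (J ⊔ Ideal.span {θ}) i' (d + 1))
    {c : Finset (Fin n) → FractionRing R} (hc : Cc 𝒜 x J i d c)
    (hb : Bd 𝒜 x J i (d + 1) (fun S => algebraMap R (FractionRing R) θ * c S)) :
    Bd 𝒜 x J i d c := by
  obtain ⟨b, hb, hcb⟩ := hb
  have hθ' : θ ∈ gradeZ 𝒜 ((1 : ℕ) : ℤ) := mem_gradeZ_nat.2 hθ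
  rcases i with _ | i
  · refine ⟨fun _ => 0, fun S hS => by omega, fun T hT => ?_⟩
    obtain rfl := Finset.card_eq_zero.1 hT
    have := hcb ∅ rfl
    rw [cechD_empty, sub_zero] at this ⊢
    exact hx.piece_cancel hreg (hc.1 _ rfl) this
  have hbc : Cc 𝒜 x (J ⊔ Ideal.span {θ}) i (d + 1) b := by
    refine ⟨fun S hS => hb S (by omega), fun T hT => ?_⟩
    have h1 := piece_mono (le_sup_left : J ≤ J ⊔ Ideal.span {θ}) (hcb T hT)
    have h2 := piece_mul_of_mem (J := J ⊔ Ideal.span {θ}) hθ'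
      (Ideal.mem_sup_right (Ideal.mem_span_singleton_self θ)) (hc.1 T hT)
    have := hx.piece_sub h2 h1
    simpa using this
  obtain ⟨a, ha, hba⟩ := hRV i rfl b hbc
  have h3 : ∀ S : Finset (Fin n), ∃ v, S.card = i → v ∈ cechPiece 𝒜 x ⊤ S d ∧
      b S - cechD a S - algebraMap R (FractionRing R) θ * v ∈ cechPiece 𝒜 x J S (d + 1) := by
    intro S
    by_cases hS : S.card = i
    · obtain ⟨v, hv, hv'⟩ := piece_split hJ hθ (hba S hS)
      exact ⟨v, fun _ => ⟨hv, hv'⟩⟩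
    · exact ⟨0, fun h => absurd h hS⟩
  choose b' hb' using h3
  refine ⟨b', fun S hS => (hb' S (by omega)).1, fun T hT => ?_⟩
  refine hx.piece_cancel hreg (e := d + 1)
    (hx.piece_sub (hc.1 T hT) (hx.cechD_mem fun S hS => (hb' S (by omega)).1)) ?_
  have h4 := hx.cechD_mem (T := T)
    (c := fun S => b S - cechD a S - algebraMap R (FractionRing R) θ * b' S)
    fun S hS => (hb' S (by omega)).2
  rw [cechD_sub (fun S => b S - cechD a S), cechD_sub, cechD_cechD, cechD_mul] at h4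
  have := hx.piece_add (hcb T hT) h4
  convert this using 1; ring

/-- `reg (R/J) ≤ reg (R/(J,θ))` for a linear nonzero divisor `θ`. -/
theorem Gen.rv_of_sup (hx : Gen 𝒜 x) {J : Ideal R} (hJ : J.IsHomogeneous 𝒜) {θ : R}
    (hθ : θ ∈ Submodule.span K (Set.range x)) (hreg : ∀ f, θ * f ∈ J → f ∈ J) {ρ : ℤ}
    (hRV : ∀ (i : ℕ) (d : ℤ), ρ < d + i → RV 𝒜 x (J ⊔ Ideal.span {θ}) i d) :
    ∀ (i : ℕ) (d : ℤ), ρ < d + i → RV 𝒜 x J i d := by
  intro i d hd c hc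
  have hθ1 := hx.mem_one_of_span hθ
  obtain ⟨N, hN⟩ := hx.kill_span hc hθ
  induction N with
  | zero => simpa using hN
  | succ N ih =>
    apply ih
    refine hx.descend hJ hθ1 hreg (fun i' hi' => hRV i' _ (by omega))
      (hc.mul (pow_mem_gradeZ hθ1 N)) ?_
    refine hN.congr (by push_cast; ring) fun S => ?_
    rw [pow_succ, map_mul]; ring

/-- `reg (R/(J,θ)) ≤ reg (R/J)` for a linear nonzero divisor `θ`. -/
theorem Gen.rv_sup (hx : Gen 𝒜 x) {J : Ideal R} (hJ : J.IsHomogeneous 𝒜) {θ : R}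
    (hθ : θ ∈ 𝒜 1) (hreg : ∀ f, θ * f ∈ J → f ∈ J) {ρ : ℤ}
    (hRV : ∀ (i : ℕ) (d : ℤ), ρ < d + i → RV 𝒜 x J i d) :
    ∀ (i : ℕ) (d : ℤ), ρ < d + i → RV 𝒜 x (J ⊔ Ideal.span {θ}) i d := by
  intro i d hd c hc
  obtain ⟨d, rfl⟩ : ∃ e, d = e + 1 := ⟨d - 1, by ring⟩
  have hθ' : θ ∈ gradeZ 𝒜 ((1 : ℕ) : ℤ) := mem_gradeZ_nat.2 hθ
  have h3 : ∀ T : Finset (Fin n), ∃ v, T.card = i + 1 → v ∈ cechPiece 𝒜 x ⊤ T d ∧
      cechD c T - algebraMap R (FractionRing R) θ * v ∈ cechPiece 𝒜 x J T (d + 1) := by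
    intro T
    by_cases hT : T.card = i + 1
    · obtain ⟨v, hv, hv'⟩ := piece_split hJ hθ (hc.2 T hT)
      exact ⟨v, fun _ => ⟨hv, hv'⟩⟩
    · exact ⟨0, fun h => absurd h hT⟩
  choose c' hc' using h3
  have hcc : Cc 𝒜 x J (i + 1) d c' := by
    refine ⟨fun S hS => (hc' S hS).1, fun U hU => ?_⟩
    refine hx.piece_cancel hreg (e := d + 1) (hx.cechD_mem fun S hS => (hc' S (by omega)).1) ?_
    have h4 := hx.cechD_mem (T := U)
      (c := fun S => cechD c S - algebraMap R (FractionRing R) θ * c' S)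
      fun S hS => (hc' S (by omega)).2
    rw [cechD_sub, cechD_cechD, cechD_mul] at h4
    simpa using piece_neg h4
  obtain ⟨a, ha, hca⟩ := hRV (i + 1) d (by push_cast; omega) c' hcc
  have hc2 : Cc 𝒜 x J i (d + 1) (fun S => c S - algebraMap R (FractionRing R) θ * a S) := by
    refine ⟨fun S hS => hx.piece_sub (hc.1 S hS) (piece_mul hθ' (ha S (by omega))),
      fun T hT => ?_⟩
    rw [cechD_sub, cechD_mul]
    have := hx.piece_add (hc' T hT).2 (piece_mul hθ' (hca T hT))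
    convert this using 1; ring
  obtain ⟨b, hb, hcb⟩ := hRV i (d + 1) hd _ hc2
  refine ⟨b, hb, fun T hT => ?_⟩
  have h1 := piece_mono (le_sup_left : J ≤ J ⊔ Ideal.span {θ}) (hcb T hT)
  have h2 := piece_mul_of_mem (J := J ⊔ Ideal.span {θ}) hθ'
    (Ideal.mem_sup_right (Ideal.mem_span_singleton_self θ)) (ha T (by omega))
  have := hx.piece_add h1 h2
  convert this using 1; ring

theorem Gen.piece_of_top (hx : Gen 𝒜 x) {J : Ideal R} {ρ : ℤ}
    (h : ∀ e : ℕ, ρ < e → ∀ f ∈ 𝒜 e, f ∈ J) {S : Finset (Fin n)} {d : ℤ}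
    (hd : ρ < d + S.card ∨ S.Nonempty) {u : FractionRing R}
    (hu : u ∈ cechPiece 𝒜 x ⊤ S d) : u ∈ cechPiece 𝒜 x J S d := by
  obtain ⟨t₀, ht⟩ := hx.mem_piece_ge hu
  obtain ⟨f, -, hfd, hu⟩ := ht (t₀ + 1 + (ρ - d).natAbs) (by omega)
  refine hx.mem_piece.2 ⟨_, f, ?_, hfd, hu⟩
  rcases mem_gradeZ_iff.1 hfd with rfl | ⟨e, he, hf⟩
  · exact zero_mem _
  refine h e ?_ f hf
  rw [he]
  have h0 : (0 : ℤ) ≤ S.card := by positivity
  have h1 : ρ - d ≤ ((ρ - d).natAbs : ℤ) := Int.le_natAbs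
  have h2 : (0 : ℤ) ≤ ((ρ - d).natAbs : ℤ) := by positivity
  have h3 : (0 : ℤ) ≤ t₀ := by positivity
  push_cast
  rcases hd with hd | hd
  · nlinarith [abs_nonneg (ρ - d)]
  · have h4 : (1 : ℤ) ≤ S.card := by exact_mod_cast hd.card_pos
    nlinarith [abs_nonneg (ρ - d), le_abs_self (ρ - d)]

theorem Gen.rv_of_top (hx : Gen 𝒜 x) {J : Ideal R} {ρ : ℤ}
    (h : ∀ e : ℕ, ρ < e → ∀ f ∈ 𝒜 e, f ∈ J) :
    ∀ (i : ℕ) (d : ℤ), ρ < d + i → RV 𝒜 x J i d := by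
  intro i d hd c hc
  refine ⟨fun _ => 0, fun S _ => piece_zero _ _ _, fun T hT => ?_⟩
  rw [cechD_zero, sub_zero]
  exact hx.piece_of_top h (Or.inl (by rwa [hT])) (hc.1 T hT)

theorem Gen.mem_of_rv (hx : Gen 𝒜 x) {J : Ideal R} {ρ : ℤ}
    (h : ∀ e : ℕ, ρ < e → ∀ f ∈ 𝒜 e, f ∈ J) {d : ℕ} (hRV : RV 𝒜 x J 0 d) {f : R}
    (hf : f ∈ 𝒜 d) : f ∈ J := by
  have h0 : algebraMap R (FractionRing R) f ∈ cechPiece 𝒜 x ⊤ ∅ d :=
    ⟨0, f, Submodule.mem_top, by simpa using mem_gradeZ_nat.2 hf, by simp⟩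
  have hc : Cc 𝒜 x J 0 d (fun _ => algebraMap R (FractionRing R) f) := by
    refine ⟨fun S hS => by rw [Finset.card_eq_zero.1 hS]; exact h0, fun T hT => ?_⟩
    refine hx.piece_of_top h (Or.inr (Finset.card_pos.1 (by omega))) (hx.cechD_mem fun S hS => ?_)
    rw [Finset.card_eq_zero.1 (by omega : S.card = 0)]; exact h0
  obtain ⟨b, -, hb⟩ := hRV _ hc
  have := hb ∅ rfl
  rw [cechD_empty, sub_zero] at this
  obtain ⟨t, g, hg, -, hfg⟩ := this
  have : f = g := by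
    apply IsFractionRing.injective R (FractionRing R)
    simpa using hfg
  rwa [this]

omit [GradedAlgebra 𝒜] in
theorem vanishes_of_rv {J : Ideal R} {i : ℕ} {d : ℤ}
    (h0 : RV 𝒜 x ⊥ i d) (h1 : ∀ i', i' + 1 = i → RV 𝒜 x J i' d) : CechVanishes 𝒜 x J i d := by
  intro c hc hcc
  obtain ⟨b, hb, hcb⟩ := h0 c ⟨fun S hS => piece_mono le_top (hc S hS),
    fun T hT => by rw [hcc T hT]; exact piece_zero _ _ _⟩
  have hcb' : ∀ T, T.card = i → c T = cechD b T := fun T hT => sub_eq_zero.1 (piece_bot (hcb T hT))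
  rcases i with _ | i
  · exact ⟨b, fun S hS => by omega, hcb'⟩
  obtain ⟨a, ha, hba⟩ := h1 i rfl b ⟨fun S hS => hb S (by omega),
    fun T hT => by rw [← hcb' T hT]; exact hc T hT⟩
  refine ⟨fun S => b S - cechD a S, fun S hS => hba S (by omega), fun T hT => ?_⟩
  rw [cechD_sub, cechD_cechD, sub_zero, hcb' T hT]

theorem Gen.rv_of_vanishes (hx : Gen 𝒜 x) {J : Ideal R} {i : ℕ} {d : ℤ}
    (h0 : RV 𝒜 x ⊥ i d) (h1 : CechVanishes 𝒜 x J (i + 1) d) : RV 𝒜 x J i d := by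
  intro c hc
  obtain ⟨b', hb', hcb'⟩ := h1 (cechD c) hc.2 fun T _ => cechD_cechD c T
  obtain ⟨b, hb, hcb⟩ := h0 (fun S => c S - b' S)
    ⟨fun S hS => hx.piece_sub (hc.1 S hS) (piece_mono le_top (hb' S (by omega))),
      fun T hT => by rw [cechD_sub, hcb' T hT, sub_self]; exact piece_zero _ _ _⟩
  refine ⟨b, hb, fun T hT => ?_⟩
  have := piece_bot (hcb T hT)
  have h2 : c T - cechD b T = b' T := by linear_combination this
  rw [h2]; exact hb' T (by omega)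

end Pool.Agent.P.MP_72aa19_al
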