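import Mathlib

/-!
Definitions for MP_72aa19_al: the v-number of an ideal, and the Castelnuovo-Mumford regularity of
an ideal `J` (as a module) of a standard graded domain `R`, through the graded Cech complex of
`J` on degree-one generators `x₁, …, xₙ` of `R₊`; its cohomology is `H^i_{R₊}(J)`.
-/

namespace Pool.Agent.P.MP_72aa19_al

variable {K R : Type*} [Field K] [CommRing R] [Algebra K R] {n : ℕ}

/-- The graded piece `R_d` for an integer `d`; it is zero for `d < 0`. -/
def gradeZ (𝒜 : ℕ → Submodule K R) (d : ℤ) : Submodule K R :=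
  if 0 ≤ d then 𝒜 d.toNat else ⊥

/-- The degree `d` part of the localisation `J_{x_S}`, `x_S = ∏_{i ∈ S} x_i`, inside the fraction
field of the domain `R`: the fractions `f / x_S ^ t` with `f ∈ J` of degree `d + t * |S|`
(each `x_i` is nonzero of degree one). -/
def cechPiece [IsDomain R] (𝒜 : ℕ → Submodule K R) (x : Fin n → R) (J : Ideal R) (S : Finset (Fin n))
    (d : ℤ) : Set (FractionRing R) :=
  {u | ∃ t : ℕ, ∃ f ∈ J, f ∈ gradeZ 𝒜 (d + t * S.card) ∧
    u = algebraMap R (FractionRing R) f / algebraMap R (FractionRing R) (∏ i ∈ S, x i) ^ t}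

/-- The Cech differential `(∂c)_T = ∑_{j ∈ T} (-1) ^ (position of j in T) c_{T ∖ j}`. -/
def cechD {F : Type*} [Ring F] (c : Finset (Fin n) → F) (T : Finset (Fin n)) : F :=
  ∑ j ∈ T, (-1) ^ (T.filter (· < j)).card * c (T.erase j)

/-- `H^i_{(x)}(J)_d = 0`: in the Cech complex with `C^i = ⨁_{|S| = i} J_{x_S}`, every cocycle of
`C^i` of degree `d` is the differential of a cochain of `C^{i-1}` of degree `d`
(for `i = 0` the conclusion says that the cocycle is zero). -/
def CechVanishes [IsDomain R] (𝒜 : ℕ → Submodule K R) (x : Fin n → R) (J : Ideal R) (i : ℕ)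
    (d : ℤ) : Prop :=
  ∀ c : Finset (Fin n) → FractionRing R,
    (∀ S, S.card = i → c S ∈ cechPiece 𝒜 x J S d) →
    (∀ T, T.card = i + 1 → cechD c T = 0) →
    ∃ b : Finset (Fin n) → FractionRing R,
      (∀ S, S.card + 1 = i → b S ∈ cechPiece 𝒜 x J S d) ∧ ∀ T, T.card = i → c T = cechD b T

/-- `reg J = max_i (a_i(J) + i) = sup {d + i : H^i_{(x)}(J)_d ≠ 0}`. -/
noncomputable def reg [IsDomain R] (𝒜 : ℕ → Submodule K R) (x : Fin n → R) (J : Ideal R) :
    EReal :=
  ⨆ (i : ℕ) (d : ℤ) (_ : ¬ CechVanishes 𝒜 x J i d), (((d + i : ℤ) : ℝ) : EReal)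

/-- `v(I)`: the least degree of a homogeneous `f` such that `(I : f)` is a prime ideal
(that is, an associated prime of `I`). -/
noncomputable def vNumber (𝒜 : ℕ → Submodule K R) (I : Ideal R) : EReal :=
  ⨅ (d : ℕ) (f : R) (_ : f ∈ 𝒜 d) (_ : (I.colon {f}).IsPrime), ((d : ℝ) : EReal)

end Pool.Agent.P.MP_72aa19_al
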