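import Pool.Agent.P.MP_72aa19_al.Ring
import Pool.Agent.P.MP_72aa19_al.Abstract

/-! The hundred components and the verification of the abstract criterion. -/

namespace Pool.Agent.P.MP_72aa19_al

open MvPolynomial DirectSum

/-- Function ring of a component. -/
abbrev DD := MvPolynomial (Fin 2 × Fin 2) ℚ

/-- Function ring of the normal bundle of a component. -/
abbrev NN := MvPolynomial (Fin 2 × Fin 5) DD

/-- A linear form on a component. -/
noncomputable def lf (φ : Fin 2) (a b : ℚ) : DD := C a * X (φ, 0) + C b * X (φ, 1)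

/-- Parametrisation of a component. -/
noncomputable def vρ (Z : Fin 2 → Fin 10) (φ τ : Fin 2) (i : Fin 5) : DD :=
  if τ = 0 then lf φ (Pa (Z φ) i) (Pb (Z φ) i) else C (Qc (Z φ) i)

/-- Normal directions of a component. -/
noncomputable def nrm (Z : Fin 2 → Fin 10) (φ τ : Fin 2) (i : Fin 5) : NN :=
  ∑ i', Nn τ (Z φ) i i' • X (φ, i')

/-- Parametrisation of the deformation to the normal bundle of a component. -/
noncomputable def vψ (Z : Fin 2 → Fin 10) (φ τ : Fin 2) (i : Fin 5) : Polynomial NN :=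
  Polynomial.C (C (vρ Z φ τ i)) + Polynomial.X * Polynomial.C (nrm Z φ τ i)

theorem lf_sum {κ : Type*} (s : Finset κ) (φ : Fin 2) (a b : κ → ℚ) :
    ∑ k ∈ s, lf φ (a k) (b k) = lf φ (∑ k ∈ s, a k) (∑ k ∈ s, b k) := by
  simp [lf, Finset.sum_add_distrib, Finset.sum_mul]

theorem lf_zero (φ : Fin 2) : lf φ 0 0 = 0 := by simp [lf]

theorem lf_smul (φ : Fin 2) (c a b : ℚ) : c • lf φ a b = lf φ (c * a) (c * b) := by
  simp [lf, smul_eq_C_mul, mul_add, mul_assoc]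

theorem lf_homog (φ : Fin 2) (a b : ℚ) : (lf φ a b).IsHomogeneous 1 :=
  (isHomogeneous_C_mul_X _ _).add (isHomogeneous_C_mul_X _ _)

theorem eval_lf (P : Fin 2 × Fin 2 → ℚ) (φ : Fin 2) (a b : ℚ) :
    eval P (lf φ a b) = a * P (φ, 0) + b * P (φ, 1) := by simp [lf]

theorem lf_ne_zero (φ : Fin 2) {a b : ℚ} (h : a ≠ 0 ∨ b ≠ 0) : lf φ a b ≠ 0 := by
  intro h0
  have := congrArg (eval fun v => if v.2 = 0 then a else b) h0
  rw [eval_lf] at this
  simp only [if_true, map_zero, one_ne_zero, if_false] at this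
  rcases h with h | h
  · nlinarith [mul_self_pos.2 h, mul_self_nonneg b]
  · nlinarith [mul_self_pos.2 h, mul_self_nonneg a]

theorem lf_irreducible (φ : Fin 2) {a b : ℚ} (h : a ≠ 0 ∨ b ≠ 0) : Irreducible (lf φ a b) := by
  refine irreducible_of_totalDegree_eq_one ((lf_homog φ a b).totalDegree (lf_ne_zero φ h)) ?_
  intro c hc
  refine isUnit_iff_ne_zero.2 fun h0 => lf_ne_zero φ h ?_
  ext1 m
  simpa [h0] using hc m

theorem vρ_sum (Z : Fin 2 → Fin 10) (φ τ : Fin 2) : ∑ i, vρ Z φ τ i = 0 := by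
  unfold vρ
  split_ifs
  · rw [lf_sum, Pa_sum, Pb_sum, lf_zero]
  · rw [← map_sum, Qc_sum, map_zero]

theorem nrm_sum (Z : Fin 2 → Fin 10) (φ τ : Fin 2) : ∑ i, nrm Z φ τ i = 0 := by
  unfold nrm
  rw [Finset.sum_comm]
  simp only [← Finset.sum_smul, Nn_sum, zero_smul, Finset.sum_const_zero]

theorem vψ_sum (Z : Fin 2 → Fin 10) (φ τ : Fin 2) : ∑ i, vψ Z φ τ i = 0 := by
  unfold vψ
  rw [Finset.sum_add_distrib, ← Finset.mul_sum, ← map_sum, ← map_sum, ← map_sum, vρ_sum, nrm_sum]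
  simp

/-- Restriction to a component. -/
noncomputable def ρZ (Z : Fin 2 → Fin 10) : Rg →ₐ[ℚ] DD := evalAt (vρ Z)

/-- Expansion along a component. -/
noncomputable def ψZ (Z : Fin 2 → Fin 10) : Rg →ₐ[ℚ] Polynomial NN := evalAt (vψ Z)

theorem vψ_coeff (Z : Fin 2 → Fin 10) (φ τ : Fin 2) (i : Fin 5) :
    (vψ Z φ τ i).coeff 0 = C (vρ Z φ τ i) := by simp [vψ]

theorem ψZ_coeff (Z : Fin 2 → Fin 10) (f : Rg) : (ψZ Z f).coeff 0 = C (ρZ Z f) := by
  change (evalAmb (vψ Z) f.1).coeff 0 = C (evalAmb (vρ Z) f.1)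
  induction f.1 using MvPolynomial.induction_on with
  | C a => simp [evalAmb, Polynomial.algebraMap_apply]
  | add p q hp hq => simp only [map_add, Polynomial.coeff_add, hp, hq]
  | mul_X p v hp =>
    simp only [map_mul, Polynomial.mul_coeff_zero, hp]
    simp [evalAmb, vψ_coeff]

theorem ρZ_xx (Z : Fin 2 → Fin 10) (φ : Fin 2) (k : Fin 10) :
    ρZ Z (xx (φ, k)) = lf φ (al (Z φ) k) (be (Z φ) k) := by
  rw [ρZ, evalAt_xx (vρ_sum Z)]
  simp only [ent, vρ, lf, al, be, if_true, one_ne_zero, if_false, map_add, map_mul]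
  ring

theorem ρZ_lin (Z : Fin 2 → Fin 10) (φ : Fin 2) (M : Fin 10 → ℚ) :
    ρZ Z (lin φ M) = lf φ (la M (Z φ)) (lb M (Z φ)) := by
  simp only [lin, map_sum, map_smul, ρZ_xx, lf_smul, lf_sum, la, lb]

theorem ρZ_homog (Z : Fin 2 → Fin 10) {e : ℕ} {g : Rg} (hg : g ∈ Gr e) :
    (ρZ Z g).IsHomogeneous e := by
  refine aeval_homog (w := wt) hg _ ?_
  rintro ⟨φ, τ, i⟩
  simp only [vρ, wt]
  split_ifs
  · exact lf_homog _ _ _
  · exact isHomogeneous_C _ _

theorem exists_w (Z : Fin 2 → Fin 10) (v : Fin 2 × Fin 5) :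
    ∃ (w : Polynomial NN) (u : DD), ψZ Z (lin v.1 (My v.2)) = Polynomial.X * w ∧
      w.coeff 0 = C u * X v ∧ u ≠ 0 := by
  obtain ⟨φ, i⟩ := v
  rw [ψZ, evalAt_y (vψ_sum Z)]
  by_cases h : inS (Z φ) i
  · obtain ⟨h1, h2, h3, h4⟩ := inS_spec _ _ h
    have h5 : vψ Z φ 0 i = Polynomial.X * Polynomial.C (X (φ, i)) := by
      simp [vψ, vρ, nrm, h1, h2, h4, lf_zero]
    refine ⟨-2 * (Polynomial.C (X (φ, i)) * vψ Z φ 1 i), -2 * C (Qc (Z φ) i), ?_, ?_, ?_⟩
    · rw [h5]; ring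
    · simp only [Polynomial.mul_coeff_zero, vψ_coeff]
      simp [vρ, map_ofNat]; ring
    · simpa using h3
  · obtain ⟨h1, h3, h4⟩ := not_inS_spec _ _ h
    have h5 : vψ Z φ 1 i = Polynomial.X * Polynomial.C (X (φ, i)) := by
      simp [vψ, vρ, nrm, h1, h4]
    refine ⟨-2 * (Polynomial.C (X (φ, i)) * vψ Z φ 0 i), -2 * lf φ (Pa (Z φ) i) (Pb (Z φ) i),
      ?_, ?_, ?_⟩
    · rw [h5]; ring
    · simp only [Polynomial.mul_coeff_zero, vψ_coeff]
      simp [vρ, map_ofNat]; ring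
    · simpa using lf_ne_zero φ h3

/-- The parameters. -/
noncomputable def zz : (Fin 2 × Fin 5) ⊕ (Fin 2 × Fin 2) → Rg :=
  Sum.elim (fun v => lin v.1 (My v.2)) (fun v => lin v.1 (Mt v.2))

/-- The basis. -/
noncomputable def ηη (J : Fin 2 → Fin 10) : Rg :=
  mon (fun a => lin 0 (MH a)) (J 0) * mon (fun a => lin 1 (MH a)) (J 1)

theorem mon_mem {h : Fin 3 → Rg} (hh : ∀ a, h a ∈ Gr 1) (j : Fin 10) : mon h j ∈ Gr (dg j) := by
  fin_cases j
  · exact SetLike.one_mem_graded Gr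
  · exact hh 0
  · exact hh 1
  · exact hh 2
  all_goals exact SetLike.mul_mem_graded (hh _) (hh _)

theorem ρZ_θ (Z : Fin 2 → Fin 10) (l : Fin 2 × Fin 2) : ρZ Z (zz (.inr l)) = X l := by
  obtain ⟨φ, l⟩ := l
  obtain ⟨h1, h2, h3, h4⟩ := Mt_spec (Z φ)
  change ρZ Z (lin φ (Mt l)) = _
  rw [ρZ_lin]
  fin_cases l
  · simp [h1, h2, lf]
  · simp [h3, h4, lf]

/-- The restriction matrix of a factor. -/
noncomputable def Mφ (φ : Fin 2) : Matrix (Fin 10) (Fin 10) DD :=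
  Matrix.of fun z j => mon (fun a => lf φ (la (MH a) z) (lb (MH a) z)) j

theorem Mφ_det (φ : Fin 2) : (Mφ φ).det ≠ 0 := by
  intro h
  have h1 := congrArg (eval fun v : Fin 2 × Fin 2 => if v.2 = 0 then (-1 : ℚ) else 3) h
  rw [RingHom.map_det, map_zero] at h1
  have h2 : (eval fun v : Fin 2 × Fin 2 => if v.2 = 0 then (-1 : ℚ) else 3).mapMatrix (Mφ φ)
      = M0 := by
    ext z j
    simp only [RingHom.mapMatrix_apply, Matrix.map_apply, Mφ, M0, Matrix.of_apply, map_mon,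
      eval_lf, if_true, one_ne_zero, if_false]
  have h3 := congrArg Matrix.det Minv_mul
  rw [Matrix.det_mul, ← h2, h1] at h3
  simp at h3

theorem Mφ_inj (φ : Fin 2) (c : Fin 10 → DD) (h : ∀ z, ∑ j, c j * Mφ φ z j = 0) (j : Fin 10) :
    c j = 0 := by
  have := Matrix.eq_zero_of_mulVec_eq_zero (Mφ_det φ) (v := c) (by
    ext1 z
    rw [← show _ = (0 : Fin 10 → DD) z from h z]
    simp only [Matrix.mulVec, dotProduct, mul_comm])
  exact congrFun this j

theorem ρZ_η (Z J : Fin 2 → Fin 10) : ρZ Z (ηη J) = Mφ 0 (Z 0) (J 0) * Mφ 1 (Z 1) (J 1) := by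
  simp only [ηη, map_mul, map_mon, ρZ_lin, Mφ, Matrix.of_apply]

theorem indep (c : (Fin 2 → Fin 10) → DD) (h : ∀ Z, ∑ J, c J * ρZ Z (ηη J) = 0)
    (J : Fin 2 → Fin 10) : c J = 0 := by
  have h1 : ∀ z z' : Fin 10, ∑ j, (∑ j', c ![j, j'] * Mφ 1 z' j') * Mφ 0 z j = 0 := by
    intro z z'
    have := h ![z, z']
    rw [← (piFinTwoEquiv fun _ => Fin 10).symm.sum_comp, Fintype.sum_prod_type] at this
    rw [← this]
    refine Finset.sum_congr rfl fun j _ => ?_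
    rw [Finset.sum_mul]
    refine Finset.sum_congr rfl fun j' _ => ?_
    rw [ρZ_η]
    change c ![j, j'] * Mφ 1 z' j' * Mφ 0 z j = c ![j, j'] * (Mφ 0 z j * Mφ 1 z' j')
    ring
  have h2 := Mφ_inj 1 (fun j' => c ![J 0, j'])
    (fun z' => Mφ_inj 0 (fun j => ∑ j', c ![j, j'] * Mφ 1 z' j') (fun z => h1 z z') (J 0)) (J 1)
  have h3 : J = ![J 0, J 1] := by ext i; fin_cases i <;> rfl
  rw [h3]; exact h2

theorem span_mod_aux {Λ : Type*} [CommRing Λ] [Algebra ℚ Λ] (π : Rg →ₐ[ℚ] Λ)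
    (hz : ∀ v, π (zz v) = 0) (f : Rg) : ∃ a : (Fin 2 → Fin 10) → ℚ,
    π (f - ∑ J, a J • ηη J) = 0 := by
  have hy : ∀ φ i, π (lin φ (My i)) = 0 := fun φ i => hz (.inl (φ, i))
  have ht : ∀ φ l, π (lin φ (Mt l)) = 0 := fun φ l => hz (.inr (φ, l))
  let h : Fin 2 → Fin 3 → Λ := fun φ a => π (lin φ (MH a))
  have hx : ∀ φ k, π (xx (φ, k)) = ∑ a, (NH k a : ℚ) • h φ a := by
    intro φ k
    rw [xx_eq]
    simp only [map_add, map_sum, map_smul, hy, ht, smul_zero, Finset.sum_const_zero, zero_add, h]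
  have hcube : ∀ φ a b c, h φ a * h φ b * h φ c = 0 := by
    intro φ
    refine cubes (h φ) (fun i j => π (Ent φ i j)) (fun i j => ?_) fun i₁ i₂ i₃ j₁ j₂ j₃ => ?_
    · unfold Ent nE
      split_ifs
      · simp [hy]
      · rw [hx, Fin.sum_univ_three]
        simp only [Algebra.smul_def, map_intCast]
    · have := congrArg π (minor_Ent φ i₁ i₂ i₃ j₁ j₂ j₃)
      simpa only [minor, map_add, map_sub, map_mul, map_zero] using this
  have hη : ∀ J, π (ηη J) = mon (h 0) (J 0) * mon (h 1) (J 1) := by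
    intro J; simp only [ηη, map_mul, map_mon, h]
  let W := Submodule.span ℚ (Set.range fun J => π (ηη J))
  have hW : ∀ j j', mon (h 0) j * mon (h 1) j' ∈ W := fun j j' =>
    Submodule.subset_span ⟨![j, j'], hη _⟩
  have hh : ∀ φ a, ∀ w ∈ W, h φ a * w ∈ W := by
    intro φ a w hw
    induction hw using Submodule.span_induction with
    | mem w hw =>
      obtain ⟨J, rfl⟩ := hw
      simp only [hη]
      fin_cases φ
      · rcases mon_mul (h 0) (hcube 0) a (J 0) with h0 | ⟨j', h0⟩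
        · change h 0 a * _ ∈ W
          rw [← mul_assoc, h0, zero_mul]; exact zero_mem _
        · change h 0 a * _ ∈ W
          rw [← mul_assoc, h0]; exact hW _ _
      · rcases mon_mul (h 1) (hcube 1) a (J 1) with h0 | ⟨j', h0⟩
        · change h 1 a * _ ∈ W
          rw [mul_left_comm, h0, mul_zero]; exact zero_mem _
        · change h 1 a * _ ∈ W
          rw [mul_left_comm, h0]; exact hW _ _
    | zero => simp
    | add w w' _ _ h1 h2 => rw [mul_add]; exact add_mem h1 h2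
    | smul c w _ h1 => rw [mul_smul_comm]; exact W.smul_mem _ h1
  have hall : ∀ w ∈ W, π f * w ∈ W := by
    have hf : f ∈ Algebra.adjoin ℚ (Set.range xx) := adjoin_xx ▸ trivial
    induction hf using Algebra.adjoin_induction with
    | mem a ha =>
      obtain ⟨⟨φ, k⟩, rfl⟩ := ha
      intro w hw
      rw [hx, Finset.sum_mul]
      exact W.sum_mem fun a _ => by rw [smul_mul_assoc]; exact W.smul_mem _ (hh φ a w hw)
    | algebraMap r =>
      intro w hw
      rw [AlgHom.commutes, ← Algebra.smul_def]; exact W.smul_mem _ hw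
    | add a b _ _ h1 h2 =>
      intro w hw
      rw [map_add, add_mul]; exact add_mem (h1 w hw) (h2 w hw)
    | mul a b _ _ h1 h2 =>
      intro w hw
      rw [map_mul, mul_assoc]; exact h1 _ (h2 w hw)
  have h1 : (1 : Λ) ∈ W := by
    have := hW 0 0
    simpa [mon] using this
  obtain ⟨a, ha⟩ := (Submodule.mem_span_range_iff_exists_fun ℚ).1 (hall 1 h1)
  refine ⟨a, ?_⟩
  rw [map_sub, map_sum]
  simp only [map_smul]
  rw [ha, mul_one, sub_self]

theorem span_mod (f : Rg) : ∃ a : (Fin 2 → Fin 10) → ℚ,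
    f - ∑ J, a J • ηη J ∈ Ideal.span (Set.range zz) := by
  have key : ∀ {R : Type} [CommRing R] [Algebra ℚ R] (I : Ideal R),
      ∃ (Λ : Type) (_ : CommRing Λ) (_ : Algebra ℚ Λ) (π : R →ₐ[ℚ] Λ), ∀ r, π r = 0 ↔ r ∈ I :=
    fun I => ⟨_, inferInstance, inferInstance, Ideal.Quotient.mkₐ ℚ I,
      fun _ => Ideal.Quotient.eq_zero_iff_mem⟩
  obtain ⟨Λ, _, _, π, hπ⟩ := key (Ideal.span (Set.range zz))
  obtain ⟨a, ha⟩ := span_mod_aux π
    (fun v => (hπ _).2 (Ideal.subset_span (Set.mem_range_self v))) f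
  exact ⟨a, (hπ _).1 ha⟩

/-- The linear forms cutting out the intersections with the neighbouring components. -/
noncomputable def cut (Z : Fin 2 → Fin 10) (v : Fin 2 × Fin 3) : DD :=
  lf v.1 (Pa (Z v.1) (cpl (Z v.1) v.2)) (Pb (Z v.1) (cpl (Z v.1) v.2))

theorem cut_ne (Z : Fin 2 → Fin 10) (v : Fin 2 × Fin 3) :
    Pa (Z v.1) (cpl (Z v.1) v.2) ≠ 0 ∨ Pb (Z v.1) (cpl (Z v.1) v.2) ≠ 0 :=
  (not_inS_spec _ _ (cpl_spec _ _)).2.1

theorem lf_dvd (φ : Fin 2) {a b c d : ℚ} (h : a ≠ 0 ∨ b ≠ 0) (h1 : c * b = d * a) :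
    lf φ a b ∣ lf φ c d := by
  have h2 : a * a + b * b ≠ 0 := by
    rcases h with h | h
    · nlinarith [mul_self_pos.2 h, mul_self_nonneg b]
    · nlinarith [mul_self_pos.2 h, mul_self_nonneg a]
  have : lf φ c d = ((c * a + d * b) / (a * a + b * b)) • lf φ a b := by
    rw [lf_smul]
    congr 1
    · rw [div_mul_eq_mul_div, eq_div_iff h2]; linear_combination b * h1
    · rw [div_mul_eq_mul_div, eq_div_iff h2]; linear_combination (-a) * h1
  rw [this, smul_eq_C_mul]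
  exact dvd_mul_left _ _

theorem cut_dvd (Z : Fin 2 → Fin 10) (v : Fin 2 × Fin 3) (g : Rg) :
    cut Z v ∣ ρZ Z g - ρZ (Function.update Z v.1 (nb (Z v.1) v.2)) g := by
  obtain ⟨φ, t⟩ := v
  have : (Ideal.Quotient.mkₐ ℚ (Ideal.span {cut Z (φ, t)})).comp (ρZ Z)
      = (Ideal.Quotient.mkₐ ℚ (Ideal.span {cut Z (φ, t)})).comp
        (ρZ (Function.update Z φ (nb (Z φ) t))) := by
    refine AlgHom.ext_of_adjoin_eq_top adjoin_xx ?_
    rintro _ ⟨⟨φ', k⟩, rfl⟩
    simp only [AlgHom.comp_apply, ρZ_xx, Ideal.Quotient.mkₐ_eq_mk]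
    by_cases h : φ' = φ
    · subst h
      rw [Ideal.Quotient.eq, Ideal.mem_span_singleton, Function.update_self]
      have h2 := lf_dvd φ' (cut_ne Z (φ', t)) (nb_spec (Z φ') t k)
      have h3 : lf φ' (al (Z φ') k) (be (Z φ') k)
          - lf φ' (al (nb (Z φ') t) k) (be (nb (Z φ') t) k)
          = lf φ' (al (Z φ') k - al (nb (Z φ') t) k) (be (Z φ') k - be (nb (Z φ') t) k) := by
        simp only [lf, map_sub]; ring
      rw [h3]; exact h2
    · rw [Function.update_of_ne h]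
  have h2 := DFunLike.congr_fun this g
  simpa only [AlgHom.comp_apply, Ideal.Quotient.mkₐ_eq_mk, Ideal.Quotient.eq,
    Ideal.mem_span_singleton] using h2

theorem cut_not_dvd (Z : Fin 2 → Fin 10) {v v' : Fin 2 × Fin 3} (h : v ≠ v') :
    ¬ cut Z v ∣ cut Z v' := by
  obtain ⟨φ, t⟩ := v
  obtain ⟨φ', t'⟩ := v'
  intro hd
  by_cases hφ : φ = φ'
  · subst hφ
    have ht : t ≠ t' := fun h' => h (by rw [h'])
    have h1 := map_dvd (eval fun v : Fin 2 × Fin 2 =>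
      if v.2 = 0 then Pb (Z φ) (cpl (Z φ) t) else - Pa (Z φ) (cpl (Z φ) t)) hd
    simp only [cut, eval_lf, if_true, one_ne_zero, if_false] at h1
    apply cpl_indep (Z φ) t t' ht
    obtain ⟨c, hc⟩ := h1
    linear_combination hc
  · have h1 := map_dvd (eval fun v : Fin 2 × Fin 2 => if v.1 = φ then 0 else
      if v.2 = 0 then Pa (Z φ') (cpl (Z φ') t') else Pb (Z φ') (cpl (Z φ') t')) hd
    simp only [cut, eval_lf, if_true, one_ne_zero, if_false, Ne.symm hφ] at h1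
    obtain ⟨c, hc⟩ := h1
    rcases cut_ne Z (φ', t') with h2 | h2
    · nlinarith [mul_self_pos.2 h2, mul_self_nonneg (Pb (Z φ') (cpl (Z φ') t'))]
    · nlinarith [mul_self_pos.2 h2, mul_self_nonneg (Pa (Z φ') (cpl (Z φ') t'))]

theorem sep (e : ℕ) (he : e ≤ 4 + 1) (g : Rg) (hg : g ∈ Gr e) (Z₀ : Fin 2 → Fin 10)
    (h : ∀ Z, Z ≠ Z₀ → ρZ Z g = 0) : ρZ Z₀ g = 0 := by
  by_contra h0
  have h1 : ∀ v, cut Z₀ v ∣ ρZ Z₀ g := by
    intro v
    have := cut_dvd Z₀ v g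
    rwa [h (Function.update Z₀ v.1 (nb (Z₀ v.1) v.2)) (fun h' => nb_ne (Z₀ v.1) v.2 (by
      have := congrFun h' v.1
      rwa [Function.update_self] at this)), sub_zero] at this
  obtain ⟨H, hH⟩ : ∏ v, cut Z₀ v ∣ ρZ Z₀ g :=
    Finset.prod_dvd_of_isRelPrime (fun v _ v' _ hv =>
      (lf_irreducible _ (cut_ne Z₀ v)).isRelPrime_iff_not_dvd.2 (cut_not_dvd Z₀ hv))
      fun v _ => h1 v
  have h2 : (∏ v, cut Z₀ v).IsHomogeneous (∑ _v : Fin 2 × Fin 3, 1) :=
    IsHomogeneous.prod _ _ _ fun v _ => lf_homog _ _ _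
  have h3 : (∏ v, cut Z₀ v) ≠ 0 :=
    Finset.prod_ne_zero_iff.2 fun v _ => lf_ne_zero _ (cut_ne Z₀ v)
  have h4 : H ≠ 0 := by rintro rfl; exact h0 (by rw [hH, mul_zero])
  have h5 := (ρZ_homog Z₀ hg).totalDegree h0
  rw [hH, totalDegree_mul_of_isDomain h3 h4, h2.totalDegree h3] at h5
  simp at h5
  omega

/-- The separating sextic of a component. -/
noncomputable def gZ (Z : Fin 2 → Fin 10) : Rg := ∏ v : Fin 2 × Fin 3, xx (v.1, pr (Z v.1) v.2)

theorem gZ_mem (Z : Fin 2 → Fin 10) : gZ Z ∈ Gr (4 + 2) := by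
  have := SetLike.prod_mem_graded Gr (fun _ : Fin 2 × Fin 3 => 1)
    (fun v => xx (v.1, pr (Z v.1) v.2)) (F := Finset.univ) fun v _ => xx_mem _
  simpa [gZ] using this

theorem gZ_self (Z : Fin 2 → Fin 10) : ρZ Z (gZ Z) ≠ 0 := by
  rw [gZ, map_prod]
  exact Finset.prod_ne_zero_iff.2 fun v _ => by rw [ρZ_xx]; exact lf_ne_zero _ (pr_self _ _)

theorem gZ_other (Z Z' : Fin 2 → Fin 10) (h : Z' ≠ Z) : ρZ Z' (gZ Z) = 0 := by
  obtain ⟨φ, hφ⟩ := Function.ne_iff.1 h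
  obtain ⟨t, h1, h2⟩ := pr_other (Z φ) (Z' φ) hφ
  rw [gZ, map_prod]
  exact Finset.prod_eq_zero (Finset.mem_univ (φ, t)) (by rw [ρZ_xx, h1, h2, lf_zero])

theorem xx_ne (k : Fin 2 × Fin 10) : xx k ≠ 0 := by
  obtain ⟨φ, k⟩ := k
  obtain ⟨z, hz⟩ := gen_seen k
  intro h
  have := ρZ_xx (fun _ => z) φ k
  rw [h, map_zero] at this
  exact lf_ne_zero φ hz this.symm

/-- The generators indexed by `Fin 20`. -/
noncomputable def x20 : Fin (2 * 10) → Rg := xx ∘ finProdFinEquiv.symm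

theorem range_x20 : Set.range x20 = Set.range xx :=
  finProdFinEquiv.symm.surjective.range_comp xx

/-- The data of the example. -/
noncomputable def setup :
    Setup Gr x20 (Fin 2 × Fin 5) (Fin 2 × Fin 2) (Fin 2 → Fin 10) (Fin 2 → Fin 10) where
  gen := ⟨fun _ => xx_mem _, fun _ => xx_ne _⟩
  z := zz
  hz := by
    rw [range_x20]
    rintro (v | v) <;> exact lin_mem_span _ _
  η := ηη
  deg J := dg (J 0) + dg (J 1)
  r := 4
  hη J := SetLike.mul_mem_graded (mon_mem (fun _ => lin_mem _ _) _)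
    (mon_mem (fun _ => lin_mem _ _) _)
  hdeg J := add_le_add (dg_le _) (dg_le _)
  j₀ := fun _ => 9
  hj₀ := rfl
  hW f := by
    obtain ⟨a, ha⟩ := span_mod f
    exact ⟨a, by convert ha⟩
  ρ := ρZ
  ψ Z := (ψZ Z).toRingHom
  hψ := ψZ_coeff
  w Z v := (exists_w Z v).choose
  hw Z v := (exists_w Z v).choose_spec.choose_spec.1
  u Z v := (exists_w Z v).choose_spec.choose
  hu Z v := (exists_w Z v).choose_spec.choose_spec.2.1
  hu0 Z v := (exists_w Z v).choose_spec.choose_spec.2.2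
  hθ := ρZ_θ
  hM := indep
  hsep := sep
  g := gZ
  hg := gZ_mem
  hg0 := gZ_self
  hg1 := gZ_other
  i₀ := (0, 0)
  Z₀ := fun _ => 0

end Pool.Agent.P.MP_72aa19_al
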