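import Pool.Agent.P.MP_72aa19_al.Tables

/-! The ring: two copies of the coordinate ring of symmetric four by four matrices of rank at
most two, as a subalgebra of a polynomial ring in sixteen variables. -/

namespace Pool.Agent.P.MP_72aa19_al

open MvPolynomial DirectSum

section sub

variable {K A : Type*} [Field K] [CommRing A] [Algebra K A] (ℬ : ℕ → Submodule K A)
  [GradedAlgebra ℬ] (s : Set A)

/-- The grading induced on a subalgebra. -/
def subGrade (e : ℕ) : Submodule K (Algebra.adjoin K s) :=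
  (ℬ e).comap (Algebra.adjoin K s).val.toLinearMap

instance : SetLike.GradedMonoid (subGrade ℬ s) where
  one_mem := SetLike.one_mem_graded ℬ
  mul_mem _ _ _ _ ha hb := SetLike.mul_mem_graded (A := ℬ) ha hb

theorem subGrade_isInternal (hs : ∀ a ∈ s, a ∈ ℬ 1) : IsInternal (subGrade ℬ s) := by
  apply isInternal_submodule_of_iSupIndep_of_iSup_eq_top
  · have h := (Decomposition.isInternal ℬ).submodule_iSupIndep
    intro i
    rw [Submodule.disjoint_def]
    intro a ha hb
    have h2 : (⨆ (j) (_ : j ≠ i), subGrade ℬ s j)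
        ≤ (⨆ (j) (_ : j ≠ i), ℬ j).comap (Algebra.adjoin K s).val.toLinearMap :=
      iSup₂_le fun j hj => Submodule.comap_mono (le_iSup₂_of_le j hj le_rfl)
    exact Subtype.ext (Submodule.disjoint_def.1 (h i) a ha (h2 hb))
  · rw [eq_top_iff]
    rintro ⟨a, ha⟩ -
    induction ha using Algebra.adjoin_induction with
    | mem a h => exact Submodule.mem_iSup_of_mem 1 (hs a h)
    | algebraMap r => exact Submodule.mem_iSup_of_mem 0 (SetLike.algebraMap_mem_graded ℬ r)
    | add a b ha hb h1 h2 => exact add_mem h1 h2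
    | mul a b ha hb h1 h2 =>
      have h3 : (⨆ i, subGrade ℬ s i) * (⨆ i, subGrade ℬ s i) ≤ ⨆ i, subGrade ℬ s i := by
        rw [Submodule.iSup_mul]
        refine iSup_le fun i => ?_
        rw [Submodule.mul_iSup]
        refine iSup_le fun j => Submodule.mul_le.2 fun u hu v hv => ?_
        exact Submodule.mem_iSup_of_mem (i + j) (SetLike.mul_mem_graded hu hv)
      exact h3 (Submodule.mul_mem_mul h1 h2)

end sub

section std

variable {K R : Type*} [Field K] [CommRing R] [Algebra K R] {𝒜 : ℕ → Submodule K R}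
  [GradedAlgebra 𝒜] {κ : Type*} {x : κ → R}

theorem exists_const (hadj : Algebra.adjoin K (Set.range x) = ⊤) (f : R) :
    ∃ c : K, f - algebraMap K R c ∈ Ideal.span (Set.range x) := by
  have hf : f ∈ Algebra.adjoin K (Set.range x) := hadj ▸ trivial
  induction hf using Algebra.adjoin_induction with
  | mem a h => exact ⟨0, by simpa using Ideal.subset_span h⟩
  | algebraMap r => exact ⟨r, by simp⟩
  | add a b _ _ h1 h2 =>
    obtain ⟨c, hc⟩ := h1
    obtain ⟨d, hd⟩ := h2
    exact ⟨c + d, by convert add_mem hc hd using 1; rw [map_add]; ring⟩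
  | mul a b _ _ h1 h2 =>
    obtain ⟨c, hc⟩ := h1
    obtain ⟨d, hd⟩ := h2
    refine ⟨c * d, ?_⟩
    convert add_mem (Ideal.mul_mem_right b _ hc) (Ideal.mul_mem_left _ (algebraMap K R c) hd)
      using 1
    rw [map_mul]; ring

theorem span_le_irrelevant (hx : ∀ i, x i ∈ 𝒜 1) :
    Ideal.span (Set.range x) ≤ (HomogeneousIdeal.irrelevant 𝒜).toIdeal := by
  rw [Ideal.span_le]
  rintro _ ⟨i, rfl⟩
  exact HomogeneousIdeal.mem_irrelevant_of_mem 𝒜 one_pos (hx i)

theorem proj_zero_eq (hx : ∀ i, x i ∈ 𝒜 1) {f : R} {c : K}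
    (h : f - algebraMap K R c ∈ Ideal.span (Set.range x)) :
    (decompose 𝒜 f 0 : R) = algebraMap K R c := by
  have h1 := (HomogeneousIdeal.mem_irrelevant_iff 𝒜 _).1 (span_le_irrelevant hx h)
  rw [map_sub, GradedRing.proj_apply, GradedRing.proj_apply,
    decompose_of_mem_same 𝒜 (SetLike.algebraMap_mem_graded 𝒜 c)] at h1
  exact sub_eq_zero.1 h1

theorem irrelevant_eq (hx : ∀ i, x i ∈ 𝒜 1) (hadj : Algebra.adjoin K (Set.range x) = ⊤) :
    (HomogeneousIdeal.irrelevant 𝒜).toIdeal = Ideal.span (Set.range x) := by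
  refine le_antisymm (fun f hf => ?_) (span_le_irrelevant hx)
  obtain ⟨c, hc⟩ := exists_const hadj f
  have h1 := proj_zero_eq hx hc
  have h2 := (HomogeneousIdeal.mem_irrelevant_iff 𝒜 _).1 hf
  rw [GradedRing.proj_apply, h1] at h2
  simpa [h2] using hc

theorem grade_zero_eq (hx : ∀ i, x i ∈ 𝒜 1) (hadj : Algebra.adjoin K (Set.range x) = ⊤) :
    ∀ f ∈ 𝒜 0, ∃ c : K, f = algebraMap K R c := by
  intro f hf
  obtain ⟨c, hc⟩ := exists_const hadj f
  exact ⟨c, by rw [← proj_zero_eq hx hc, decompose_of_mem_same 𝒜 hf]⟩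

end std

/-- Variables: factor, type of point, coordinate. -/
abbrev Var := Fin 2 × Fin 2 × Fin 4

/-- Weights of the variables. -/
def wt (v : Var) : ℕ := if v.2.1 = 0 then 1 else 0

/-- The ambient polynomial ring. -/
abbrev Amb := MvPolynomial Var ℚ

/-- A vector with five coordinates summing to zero. -/
def ext5 {Λ : Type*} [CommRing Λ] (v : Fin 4 → Λ) : Fin 5 → Λ :=
  ![v 0, v 1, v 2, v 3, -(v 0 + v 1 + v 2 + v 3)]

/-- Entries of the symmetric product of two vectors. -/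
def ent {Λ : Type*} [CommRing Λ] (p q : Fin 5 → Λ) (i j : Fin 5) : Λ := p i * q j + p j * q i

/-- The generic points. -/
noncomputable def pt (φ τ : Fin 2) : Fin 5 → Amb := ext5 fun i => X (φ, τ, i)

/-- The twenty generators. -/
noncomputable def gen (k : Fin 2 × Fin 10) : Amb := ent (pt k.1 0) (pt k.1 1) (fst k.2) (snd k.2)

/-- The grading of the ambient ring. -/
noncomputable abbrev ambGrade : ℕ → Submodule ℚ Amb := weightedHomogeneousSubmodule ℚ wt

noncomputable instance : GradedAlgebra ambGrade := weightedGradedAlgebra ℚ wt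

theorem pt_mem (φ τ : Fin 2) (i : Fin 5) : pt φ τ i ∈ ambGrade (if τ = 0 then 1 else 0) := by
  have h : ∀ j : Fin 4, (X (φ, τ, j) : Amb) ∈ ambGrade (if τ = 0 then 1 else 0) :=
    fun j => isWeightedHomogeneous_X ℚ wt (φ, τ, j)
  fin_cases i
  · exact h 0
  · exact h 1
  · exact h 2
  · exact h 3
  · exact neg_mem (add_mem (add_mem (add_mem (h 0) (h 1)) (h 2)) (h 3))

theorem gen_mem (k : Fin 2 × Fin 10) : gen k ∈ ambGrade 1 :=
  add_mem (SetLike.mul_mem_graded (pt_mem k.1 0 _) (pt_mem k.1 1 _))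
    (SetLike.mul_mem_graded (pt_mem k.1 0 _) (pt_mem k.1 1 _))

/-- The ring. -/
abbrev Rg : Type := Algebra.adjoin ℚ (Set.range gen)

/-- Its grading. -/
noncomputable def Gr : ℕ → Submodule ℚ Rg := subGrade ambGrade (Set.range gen)

noncomputable instance : GradedAlgebra Gr :=
  (subGrade_isInternal ambGrade (Set.range gen)
    (by rintro _ ⟨k, rfl⟩; exact gen_mem k)).gradedAlgebra

/-- The generators as elements of the ring. -/
noncomputable def xx (k : Fin 2 × Fin 10) : Rg := ⟨gen k, Algebra.subset_adjoin ⟨k, rfl⟩⟩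

theorem xx_mem (k : Fin 2 × Fin 10) : xx k ∈ Gr 1 := gen_mem k

theorem adjoin_xx : Algebra.adjoin ℚ (Set.range xx) = ⊤ := by
  rw [← Algebra.adjoin_adjoin_coe_preimage (R := ℚ) (s := Set.range gen)]
  congr 1
  ext a
  constructor
  · rintro ⟨k, rfl⟩; exact ⟨k, rfl⟩
  · rintro ⟨k, hk⟩; exact ⟨k, Subtype.ext hk⟩

/-- A linear form in the generators of one factor. -/
noncomputable def lin (φ : Fin 2) (M : Fin 10 → ℚ) : Rg := ∑ k, M k • xx (φ, k)

theorem lin_mem_span (φ : Fin 2) (M : Fin 10 → ℚ) : lin φ M ∈ Submodule.span ℚ (Set.range xx) :=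
  Submodule.sum_mem _ fun k _ => Submodule.smul_mem _ _ (Submodule.subset_span ⟨_, rfl⟩)

theorem lin_mem (φ : Fin 2) (M : Fin 10 → ℚ) : lin φ M ∈ Gr 1 :=
  Submodule.sum_mem _ fun _ _ => Submodule.smul_mem _ _ (xx_mem _)

section evalAt

variable {Λ : Type*} [CommRing Λ] [Algebra ℚ Λ]

/-- Evaluation of the ambient ring at two pairs of points. -/
noncomputable def evalAmb (vec : Fin 2 → Fin 2 → Fin 5 → Λ) : Amb →ₐ[ℚ] Λ :=
  aeval fun v => vec v.1 v.2.1 v.2.2.castSucc

/-- Evaluation of the ring at two pairs of points. -/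
noncomputable def evalAt (vec : Fin 2 → Fin 2 → Fin 5 → Λ) : Rg →ₐ[ℚ] Λ :=
  (evalAmb vec).comp (Subalgebra.val _)

theorem evalAmb_pt {vec : Fin 2 → Fin 2 → Fin 5 → Λ} (h : ∀ φ τ, ∑ i, vec φ τ i = 0)
    (φ τ : Fin 2) (i : Fin 5) : evalAmb vec (pt φ τ i) = vec φ τ i := by
  have h1 := h φ τ
  rw [Fin.sum_univ_five] at h1
  fin_cases i
  · simp [pt, ext5, evalAmb]
  · simp [pt, ext5, evalAmb]
  · simp [pt, ext5, evalAmb]
  · simp only [pt, ext5, evalAmb]; exact aeval_X _ _
  · have : pt φ τ 4 = -(X (φ, τ, 0) + X (φ, τ, 1) + X (φ, τ, 2) + X (φ, τ, 3)) := rfl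
    change evalAmb vec (pt φ τ 4) = vec φ τ 4
    rw [this]
    simp only [evalAmb, map_neg, map_add, aeval_X]
    change -(vec φ τ 0 + vec φ τ 1 + vec φ τ 2 + vec φ τ 3) = _
    linear_combination -h1

theorem evalAt_xx {vec : Fin 2 → Fin 2 → Fin 5 → Λ} (h : ∀ φ τ, ∑ i, vec φ τ i = 0)
    (φ : Fin 2) (k : Fin 10) :
    evalAt vec (xx (φ, k)) = ent (vec φ 0) (vec φ 1) (fst k) (snd k) := by
  change evalAmb vec (gen (φ, k)) = _
  simp only [gen, ent, map_add, map_mul, evalAmb_pt h]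

theorem star_sum (p q : Fin 5 → Λ) (hp : ∑ i, p i = 0) (hq : ∑ i, q i = 0) (i : Fin 5) :
    ∑ k, My i k • ent p q (fst k) (snd k) = -2 * (p i * q i) := by
  rw [Fin.sum_univ_five] at hp hq
  fin_cases i <;> simp [Fin.sum_univ_succ, My, ent, fst, snd]
  · linear_combination p 0 * hq + q 0 * hp
  · linear_combination p 1 * hq + q 1 * hp
  · linear_combination p 2 * hq + q 2 * hp
  · linear_combination p 3 * hq + q 3 * hp
  · linear_combination p 4 * hq + q 4 * hp

theorem evalAt_y {vec : Fin 2 → Fin 2 → Fin 5 → Λ} (h : ∀ φ τ, ∑ i, vec φ τ i = 0)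
    (φ : Fin 2) (i : Fin 5) :
    evalAt vec (lin φ (My i)) = -2 * (vec φ 0 i * vec φ 1 i) := by
  rw [← star_sum _ _ (h φ 0) (h φ 1), lin, map_sum]
  simp only [map_smul, evalAt_xx h]

end evalAt

theorem pt_sum (φ τ : Fin 2) : ∑ i, pt φ τ i = 0 := by
  rw [Fin.sum_univ_five]
  change X (φ, τ, 0) + X (φ, τ, 1) + X (φ, τ, 2) + X (φ, τ, 3)
    + -(X (φ, τ, 0) + X (φ, τ, 1) + X (φ, τ, 2) + X (φ, τ, 3)) = (0 : Amb)
  ring

/-- The symmetric matrix of a factor. -/
noncomputable def Ent (φ : Fin 2) (i j : Fin 5) : Rg :=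
  if i = j then - lin φ (My i) else xx (φ, pairIdx i j)

theorem coe_Ent (φ : Fin 2) (i j : Fin 5) : (Ent φ i j : Amb) = ent (pt φ 0) (pt φ 1) i j := by
  unfold Ent
  split_ifs with h
  · subst h
    have := star_sum _ _ (pt_sum φ 0) (pt_sum φ 1) i
    have h2 : ((lin φ (My i) : Rg) : Amb) = ∑ k, My i k • gen (φ, k) := by
      simp [lin, xx]
    rw [Subalgebra.coe_neg, h2]
    simp only [gen]
    rw [this, ent]; ring
  · change gen (φ, pairIdx i j) = _
    rcases pairIdx_spec i j h with ⟨h1, h2⟩ | ⟨h1, h2⟩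
    · simp only [gen, h1, h2]
    · simp only [gen, h1, h2, ent]; ring

theorem minor_Ent (φ : Fin 2) (i₁ i₂ i₃ j₁ j₂ j₃ : Fin 5) :
    minor (Ent φ) i₁ i₂ i₃ j₁ j₂ j₃ = 0 := by
  apply Subtype.ext
  simp only [minor, Subalgebra.coe_add, Subalgebra.coe_sub, Subalgebra.coe_mul, coe_Ent, ent,
    Subalgebra.coe_zero]
  ring

theorem xx_eq (φ : Fin 2) (k : Fin 10) : xx (φ, k) = ∑ i, Ny k i • lin φ (My i)
    + ∑ l, Nt k l • lin φ (Mt l) + ∑ a, (NH k a : ℚ) • lin φ (MH a) := by
  simp only [lin, Finset.smul_sum, smul_smul]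
  rw [Finset.sum_comm (s := (Finset.univ : Finset (Fin 5))),
    Finset.sum_comm (s := (Finset.univ : Finset (Fin 2))),
    Finset.sum_comm (s := (Finset.univ : Finset (Fin 3))), ← Finset.sum_add_distrib,
    ← Finset.sum_add_distrib]
  simp only [← Finset.sum_smul, ← add_smul, inverse_spec]
  simp

theorem aeval_homog {σ τ : Type*} {w : σ → ℕ} {f : MvPolynomial σ ℚ} {e : ℕ}
    (hf : f.IsWeightedHomogeneous w e) (v : σ → MvPolynomial τ ℚ)
    (hv : ∀ i, (v i).IsHomogeneous (w i)) : (aeval v f).IsHomogeneous e := by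
  rw [f.as_sum, map_sum]
  refine IsHomogeneous.sum _ _ _ fun α hα => ?_
  rw [aeval_monomial, ← hf (mem_support_iff.1 hα), Finsupp.weight_apply, Finsupp.sum, Finsupp.prod]
  refine IsHomogeneous.C_mul (IsHomogeneous.prod _ _ _ fun i _ => ?_) _
  have := (hv i).pow (α i)
  rwa [mul_comm] at this

end Pool.Agent.P.MP_72aa19_al
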