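import Pool.Agent.P.MP_72aa19_al.Defs

/-! Sign bookkeeping for the Cech differential. -/

namespace Pool.Agent.P.MP_72aa19_al

variable {n : ℕ} {F : Type*} [CommRing F]

/-- The sign of `j` in `T`. -/
def sgn (F : Type*) [CommRing F] (T : Finset (Fin n)) (j : Fin n) : F :=
  (-1) ^ (T.filter (· < j)).card

theorem cechD_eq (c : Finset (Fin n) → F) (T : Finset (Fin n)) :
    cechD c T = ∑ j ∈ T, sgn F T j * c (T.erase j) := rfl

theorem sgn_mul_self (T : Finset (Fin n)) (j : Fin n) : sgn F T j * sgn F T j = 1 := by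
  unfold sgn
  rw [← mul_pow]; simp

theorem sgn_erase_of_lt {T : Finset (Fin n)} {j l : Fin n} (hj : j ∈ T) (h : j < l) :
    sgn F T l = - sgn F (T.erase j) l := by
  unfold sgn
  have : (T.filter (· < l)) = insert j ((T.erase j).filter (· < l)) := by
    ext a
    simp only [Finset.mem_filter, Finset.mem_insert, Finset.mem_erase]
    constructor
    · rintro ⟨h1, h2⟩
      by_cases ha : a = j
      · exact Or.inl ha
      · exact Or.inr ⟨⟨ha, h1⟩, h2⟩
    · rintro (rfl | ⟨⟨_, h1⟩, h2⟩)
      · exact ⟨hj, h⟩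
      · exact ⟨h1, h2⟩
  rw [this, Finset.card_insert_of_notMem (by simp), pow_succ]
  ring

theorem sgn_erase_of_gt {T : Finset (Fin n)} {j l : Fin n} (h : j < l) :
    sgn F (T.erase l) j = sgn F T j := by
  unfold sgn
  congr 2
  ext a
  simp only [Finset.mem_filter, Finset.mem_erase]
  constructor
  · rintro ⟨⟨_, h1⟩, h2⟩; exact ⟨h1, h2⟩
  · rintro ⟨h1, h2⟩; exact ⟨⟨(h2.trans h).ne, h1⟩, h2⟩

theorem sgn_swap {T : Finset (Fin n)} {j l : Fin n} (hj : j ∈ T) (hl : l ∈ T) (h : j ≠ l) :
    sgn F T j * sgn F (T.erase j) l = - (sgn F T l * sgn F (T.erase l) j) := by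
  rcases lt_or_gt_of_ne h with h | h
  · rw [sgn_erase_of_lt hj h, sgn_erase_of_gt h]; ring
  · rw [sgn_erase_of_lt hl h, sgn_erase_of_gt h]; ring

theorem cechD_congr {c c' : Finset (Fin n) → F} {T : Finset (Fin n)}
    (h : ∀ S, S.card + 1 = T.card → c S = c' S) : cechD c T = cechD c' T := by
  rw [cechD_eq, cechD_eq]
  refine Finset.sum_congr rfl fun j hj => ?_
  rw [h _ (Finset.card_erase_add_one hj)]

theorem cechD_add (c c' : Finset (Fin n) → F) (T : Finset (Fin n)) :
    cechD (fun S => c S + c' S) T = cechD c T + cechD c' T := by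
  simp only [cechD_eq, mul_add, Finset.sum_add_distrib]

theorem cechD_sub (c c' : Finset (Fin n) → F) (T : Finset (Fin n)) :
    cechD (fun S => c S - c' S) T = cechD c T - cechD c' T := by
  simp only [cechD_eq, mul_sub, Finset.sum_sub_distrib]

theorem cechD_mul (r : F) (c : Finset (Fin n) → F) (T : Finset (Fin n)) :
    cechD (fun S => r * c S) T = r * cechD c T := by
  simp only [cechD_eq, Finset.mul_sum]
  exact Finset.sum_congr rfl fun j _ => by ring

theorem cechD_zero (T : Finset (Fin n)) : cechD (fun _ => (0 : F)) T = 0 := by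
  simp [cechD_eq]

theorem cechD_empty (c : Finset (Fin n) → F) : cechD c ∅ = 0 := by
  simp [cechD_eq]

theorem cechD_cechD (c : Finset (Fin n) → F) (T : Finset (Fin n)) :
    cechD (cechD c) T = 0 := by
  have h1 : cechD (cechD c) T = ∑ p ∈ T.sigma (fun j => T.erase j),
      sgn F T p.1 * sgn F (T.erase p.1) p.2 * c ((T.erase p.1).erase p.2) := by
    rw [Finset.sum_sigma, cechD_eq]
    refine Finset.sum_congr rfl fun j _ => ?_
    rw [cechD_eq, Finset.mul_sum]
    exact Finset.sum_congr rfl fun l _ => by ring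
  rw [h1]
  refine Finset.sum_involution (fun p _ => ⟨p.2, p.1⟩) ?_ ?_ ?_ ?_
  · rintro ⟨j, l⟩ hp
    simp only [Finset.mem_sigma, Finset.mem_erase] at hp
    have := sgn_swap (F := F) hp.1 hp.2.2 hp.2.1.symm
    simp only
    rw [this, Finset.erase_right_comm (s := T) (a := l) (b := j)]
    ring
  · rintro ⟨j, l⟩ hp _ h
    simp only [Finset.mem_sigma, Finset.mem_erase] at hp
    simp only [Sigma.mk.injEq] at h
    exact hp.2.1 h.1
  · rintro ⟨j, l⟩ hp
    simp only [Finset.mem_sigma, Finset.mem_erase] at hp ⊢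
    exact ⟨hp.2.2, hp.2.1.symm, hp.1⟩
  · rintro ⟨j, l⟩ _
    rfl

/-- The contracting homotopy attached to the index `j`. -/
def htpy (j : Fin n) (c : Finset (Fin n) → F) (S : Finset (Fin n)) : F :=
  if j ∈ S then 0 else sgn F (insert j S) j * c (insert j S)

theorem htpy_spec (j : Fin n) (c : Finset (Fin n) → F) (T : Finset (Fin n)) :
    c T - cechD (htpy j c) T = htpy j (cechD c) T := by
  by_cases hj : j ∈ T
  · have h1 : htpy j (cechD c) T = 0 := by simp [htpy, hj]
    rw [h1, cechD_eq, Finset.sum_eq_single j]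
    · have : htpy j c (T.erase j) = sgn F T j * c T := by
        simp [htpy, Finset.insert_erase hj]
      rw [this, ← mul_assoc, sgn_mul_self]; ring
    · intro l _ hl
      have : j ∈ T.erase l := Finset.mem_erase.2 ⟨hl.symm, hj⟩
      simp [htpy, this]
    · intro h; exact absurd hj h
  · have h1 : htpy j (cechD c) T = sgn F (insert j T) j * cechD c (insert j T) := by
      simp [htpy, hj]
    rw [h1, cechD_eq c, Finset.sum_insert hj, Finset.erase_insert hj, mul_add, ← mul_assoc,
      sgn_mul_self, one_mul, cechD_eq, sub_eq_add_neg, ← Finset.sum_neg_distrib, Finset.mul_sum]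
    congr 1
    refine Finset.sum_congr rfl fun l hl => ?_
    have hjl : j ≠ l := fun h => hj (h ▸ hl)
    have h2 : j ∉ T.erase l := fun h => hj (Finset.mem_of_mem_erase h)
    have h3 : insert j (T.erase l) = (insert j T).erase l := by
      rw [Finset.erase_insert_of_ne hjl]
    have h4 := sgn_swap (F := F) (T := insert j T) (Finset.mem_insert_self j T)
      (Finset.mem_insert_of_mem hl) hjl
    rw [Finset.erase_insert hj] at h4
    have h5 : htpy j c (T.erase l) = sgn F ((insert j T).erase l) j * c ((insert j T).erase l) := by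
      simp only [htpy, h2, if_false, h3]
    rw [h5]
    have h6 := sgn_mul_self (F := F) (insert j T) j
    have h7 := sgn_mul_self (F := F) ((insert j T).erase l) j
    have h8 : sgn F T l * sgn F ((insert j T).erase l) j
        = - (sgn F (insert j T) j * sgn F (insert j T) l) := by
      linear_combination (sgn F (insert j T) j * sgn F ((insert j T).erase l) j) * h4
        - (sgn F T l * sgn F ((insert j T).erase l) j) * h6
        - (sgn F (insert j T) j * sgn F (insert j T) l) * h7
    linear_combination (- c ((insert j T).erase l)) * h8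

end Pool.Agent.P.MP_72aa19_al
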