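import Mathlib

/-! Numerical tables for the ten lines and the finite checks on them. -/

namespace Pool.Agent.P.MP_72aa19_al

/-- First element of a pair. -/
def fst : Fin 10 → Fin 5 :=
  ![0, 0, 0, 0, 1, 1, 1, 2, 2, 3]

/-- Second element of a pair. -/
def snd : Fin 10 → Fin 5 :=
  ![1, 2, 3, 4, 2, 3, 4, 3, 4, 4]

/-- Index of a pair. -/
def pairIdx : Fin 5 → Fin 5 → Fin 10 :=
  ![![0, 0, 1, 2, 3],
    ![0, 0, 4, 5, 6],
    ![1, 4, 0, 7, 8],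
    ![2, 5, 7, 0, 9],
    ![3, 6, 8, 9, 0]]

/-- The five generators of the ideal. -/
def My : Fin 5 → Fin 10 → ℚ :=
  ![![1, 1, 1, 1, 0, 0, 0, 0, 0, 0],
    ![1, 0, 0, 0, 1, 1, 1, 0, 0, 0],
    ![0, 1, 0, 0, 1, 0, 0, 1, 1, 0],
    ![0, 0, 1, 0, 0, 1, 0, 1, 0, 1],
    ![0, 0, 0, 1, 0, 0, 1, 0, 1, 1]]

/-- The two further parameters. -/
def Mt : Fin 2 → Fin 10 → ℚ :=
  ![![0, 0, 0, 0, 0, 1, 1, 1, 0, 0],
    ![0, 0, 0, 0, 0, 1, 0, 0, 1, -1]]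

/-- The three remaining linear forms. -/
def MH : Fin 3 → Fin 10 → ℚ :=
  ![![0, 0, 0, 0, 0, 0, 1, 0, 0, 0],
    ![0, 0, 0, 0, 0, 0, 0, 0, 1, 0],
    ![0, 0, 0, 0, 0, 0, 0, 0, 0, 1]]

/-- Inverse matrix, first block. -/
def Ny : Fin 10 → Fin 5 → ℚ :=
  ![![1/2, 1/2, -1/2, -1/2, -1/2],
    ![1/2, -1/2, 1/2, -1/2, -1/2],
    ![0, 0, 0, 1, 0],
    ![0, 0, 0, 0, 1],
    ![-1/2, 1/2, 1/2, 1/2, 1/2],
    ![0, 0, 0, 0, 0],
    ![0, 0, 0, 0, 0],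
    ![0, 0, 0, 0, 0],
    ![0, 0, 0, 0, 0],
    ![0, 0, 0, 0, 0]]

/-- Inverse matrix, second block. -/
def Nt : Fin 10 → Fin 2 → ℚ :=
  ![![1, -1],
    ![0, 1],
    ![-1, 0],
    ![0, 0],
    ![-1, 0],
    ![0, 1],
    ![0, 0],
    ![1, -1],
    ![0, 0],
    ![0, 0]]

/-- Inverse matrix, third block. -/
def NH : Fin 10 → Fin 3 → ℤ :=
  ![![-1, 2, 0],
    ![1, -1, 2],
    ![1, 0, -1],
    ![-1, -1, -1],
    ![0, -1, -1],
    ![0, -1, 1],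
    ![1, 0, 0],
    ![-1, 1, -1],
    ![0, 1, 0],
    ![0, 0, 1]]

/-- Moving point of a line, first coefficient. -/
def Pa : Fin 10 → Fin 5 → ℚ :=
  ![![0, 0, 1, 0, -1],
    ![0, 1, 0, -1, 0],
    ![0, 1, -2, 0, 1],
    ![0, -1, 1/2, 1/2, 0],
    ![-2, 0, 0, 1, 1],
    ![1, 0, -1, 0, 0],
    ![-3, 0, 2, 1, 0],
    ![3/2, -1, 0, 0, -1/2],
    ![1, -1, 0, 0, 0],
    ![-2, 1, 1, 0, 0]]

/-- Moving point of a line, second coefficient. -/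
def Pb : Fin 10 → Fin 5 → ℚ :=
  ![![0, 0, 0, -1, 1],
    ![0, 1, 0, 0, -1],
    ![0, -1, 1, 0, 0],
    ![0, 0, -1/2, 1/2, 0],
    ![-1, 0, 0, 1, 0],
    ![-2, 0, 1, 0, 1],
    ![1, 0, -1, 0, 0],
    ![-1/2, 0, 0, 0, 1/2],
    ![-2, 1, 0, 1, 0],
    ![-1, 1, 0, 0, 0]]

/-- Fixed point of a line. -/
def Qc : Fin 10 → Fin 5 → ℚ :=
  ![![1, -1, 0, 0, 0],
    ![1, 0, -1, 0, 0],
    ![1, 0, 0, -1, 0],
    ![1, 0, 0, 0, -1],
    ![0, 1, -1, 0, 0],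
    ![0, 1, 0, -1, 0],
    ![0, 1, 0, 0, -1],
    ![0, 0, 1, -1, 0],
    ![0, 0, 1, 0, -1],
    ![0, 0, 0, 1, -1]]

/-- Complement of a pair. -/
def cpl : Fin 10 → Fin 3 → Fin 5 :=
  ![![2, 3, 4],
    ![1, 3, 4],
    ![1, 2, 4],
    ![1, 2, 3],
    ![0, 3, 4],
    ![0, 2, 4],
    ![0, 2, 3],
    ![0, 1, 4],
    ![0, 1, 3],
    ![0, 1, 2]]

/-- The three neighbours of a line. -/
def nb : Fin 10 → Fin 3 → Fin 10 :=
  ![![9, 8, 7],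
    ![9, 6, 5],
    ![8, 6, 4],
    ![7, 5, 4],
    ![9, 3, 2],
    ![8, 3, 1],
    ![7, 2, 1],
    ![6, 3, 0],
    ![5, 2, 0],
    ![4, 1, 0]]

/-- The three factors of the separating cubic. -/
def pr : Fin 10 → Fin 3 → Fin 10 :=
  ![![1, 2, 3],
    ![0, 2, 3],
    ![0, 1, 3],
    ![0, 1, 2],
    ![0, 5, 6],
    ![0, 4, 6],
    ![0, 4, 5],
    ![1, 4, 8],
    ![1, 4, 7],
    ![2, 5, 7]]

/-- Inverse of the evaluated restriction matrix. -/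
def Minv : Matrix (Fin 10) (Fin 10) ℚ :=
  Matrix.of ![![1/2, -1, 3/10, 3/2, 3, 1/14, 1/5, -1/2, -1/14, -3],
    ![1/24, 5/12, 11/40, 7/8, -1/4, 23/168, -3/20, -5/8, 5/168, -3/4],
    ![-13/24, 5/3, -1/4, -13/8, -7/4, -1/168, -5/12, 7/24, 11/84, 5/2],
    ![-7/24, 5/6, 3/5, -7/8, -9/4, -11/168, -11/60, 5/24, 1/42, 2],
    ![1/24, 1/6, 1/20, 1/8, -1/4, 5/168, -1/20, -1/8, 1/84, 0],
    ![1/12, 1/12, -1/8, -1/2, 1/2, -1/21, 0, 1/4, 1/168, -1/4],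
    ![0, 1/12, 3/40, 1/4, 0, -1/84, -1/30, -1/6, 3/56, -1/4],
    ![1/8, -1/3, 1/20, 3/8, 1/4, -1/168, 7/60, -1/24, -1/28, -1/2],
    ![-1/12, 0, -1/5, -1/4, 1/2, 1/28, 1/30, -1/12, 1/21, 0],
    ![-5/24, 1/6, 1/10, -5/8, -3/4, -1/168, -1/60, 7/24, 1/21, 1]]

/-- Degrees of the basis monomials. -/
def dg : Fin 10 → ℕ :=
  ![0, 1, 1, 1, 2, 2, 2, 2, 2, 2]

/-- Membership in a pair. -/
def inS (z : Fin 10) (i : Fin 5) : Prop := i = fst z ∨ i = snd z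

instance (z : Fin 10) (i : Fin 5) : Decidable (inS z i) := by unfold inS; infer_instance

/-- Normal directions. -/
def Nn (τ : Fin 2) (z : Fin 10) (i i' : Fin 5) : ℚ :=
  if τ = 0 then
    (if inS z i' then (if i = i' then 1 else 0) - (if i = cpl z 0 then 1 else 0) else 0)
  else (if inS z i' then 0 else (if i = i' then 1 else 0) - (if i = snd z then 1 else 0))

/-- Restriction of a generator to a line, first coefficient. -/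
def al (z k : Fin 10) : ℚ := Pa z (fst k) * Qc z (snd k) + Pa z (snd k) * Qc z (fst k)

/-- Restriction of a generator to a line, second coefficient. -/
def be (z k : Fin 10) : ℚ := Pb z (fst k) * Qc z (snd k) + Pb z (snd k) * Qc z (fst k)

/-- Restriction of a linear form to a line, first coefficient. -/
def la (M : Fin 10 → ℚ) (z : Fin 10) : ℚ := ∑ k, M k * al z k

/-- Restriction of a linear form to a line, second coefficient. -/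
def lb (M : Fin 10 → ℚ) (z : Fin 10) : ℚ := ∑ k, M k * be z k

/-- The monomials of degree at most two in three elements. -/
def mon {Λ : Type*} [CommRing Λ] (h : Fin 3 → Λ) : Fin 10 → Λ :=
  ![1, h 0, h 1, h 2, h 0 * h 0, h 0 * h 1, h 0 * h 2, h 1 * h 1, h 1 * h 2, h 2 * h 2]

/-- The restriction matrix at a rational point. -/
def M0 : Matrix (Fin 10) (Fin 10) ℚ :=
  Matrix.of fun z j => mon (fun a => la (MH a) z * (-1) + lb (MH a) z * 3) j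

/-- Entries of the symmetric matrix modulo the parameters. -/
def nE (i j : Fin 5) (a : Fin 3) : ℤ := if i = j then 0 else NH (pairIdx i j) a

theorem Minv_mul : Minv * M0 = 1 := by decide +kernel

theorem fst_ne_snd : ∀ k, fst k ≠ snd k := by decide

theorem pairIdx_spec : ∀ i j, i ≠ j → (fst (pairIdx i j) = i ∧ snd (pairIdx i j) = j) ∨
    (fst (pairIdx i j) = j ∧ snd (pairIdx i j) = i) := by decide

theorem inverse_spec : ∀ k k' : Fin 10, ∑ i, Ny k i * My i k' + ∑ l, Nt k l * Mt l k'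
    + ∑ a, (NH k a : ℚ) * MH a k' = if k = k' then 1 else 0 := by decide +kernel

theorem Pa_sum : ∀ z, ∑ i, Pa z i = 0 := by decide +kernel
theorem Pb_sum : ∀ z, ∑ i, Pb z i = 0 := by decide +kernel
theorem Qc_sum : ∀ z, ∑ i, Qc z i = 0 := by decide +kernel
theorem Nn_sum : ∀ τ z i', ∑ i, Nn τ z i i' = 0 := by decide +kernel

theorem inS_spec : ∀ z i, inS z i → Pa z i = 0 ∧ Pb z i = 0 ∧ Qc z i ≠ 0 ∧
    ∀ i', Nn 0 z i i' = if i = i' then 1 else 0 := by decide +kernel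

theorem not_inS_spec : ∀ z i, ¬ inS z i → Qc z i = 0 ∧ (Pa z i ≠ 0 ∨ Pb z i ≠ 0) ∧
    ∀ i', Nn 1 z i i' = if i = i' then 1 else 0 := by decide +kernel

theorem Mt_spec : ∀ z, la (Mt 0) z = 1 ∧ lb (Mt 0) z = 0 ∧ la (Mt 1) z = 0 ∧ lb (Mt 1) z = 1 := by
  decide +kernel

theorem nb_ne : ∀ z t, nb z t ≠ z := by decide

theorem cpl_spec : ∀ z t, ¬ inS z (cpl z t) := by decide

theorem nb_spec : ∀ z t k, (al z k - al (nb z t) k) * Pb z (cpl z t)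
    = (be z k - be (nb z t) k) * Pa z (cpl z t) := by decide +kernel

theorem cpl_indep : ∀ z t t', t ≠ t' →
    Pa z (cpl z t') * Pb z (cpl z t) - Pb z (cpl z t') * Pa z (cpl z t) ≠ 0 := by decide +kernel

theorem pr_self : ∀ z t, al z (pr z t) ≠ 0 ∨ be z (pr z t) ≠ 0 := by decide +kernel

theorem pr_other : ∀ z z', z' ≠ z → ∃ t, al z' (pr z t) = 0 ∧ be z' (pr z t) = 0 := by
  decide +kernel

theorem gen_seen : ∀ k, ∃ z, al z k ≠ 0 ∨ be z k ≠ 0 := by decide +kernel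

theorem dg_le : ∀ j, dg j ≤ 2 := by decide

theorem map_mon {Λ Λ' F : Type*} [CommRing Λ] [CommRing Λ'] [FunLike F Λ Λ']
    [RingHomClass F Λ Λ'] (f : F) (h : Fin 3 → Λ) (j : Fin 10) :
    f (mon h j) = mon (fun a => f (h a)) j := by
  fin_cases j <;> simp [mon]

theorem mon_mul {Λ : Type*} [CommRing Λ] (h : Fin 3 → Λ) (h3 : ∀ a b c, h a * h b * h c = 0)
    (a : Fin 3) (j : Fin 10) : h a * mon h j = 0 ∨ ∃ j', h a * mon h j = mon h j' := by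
  have h4 : ∀ a b c, h a * (h b * h c) = 0 := fun a b c => by rw [← mul_assoc, h3]
  fin_cases j
  · right; fin_cases a
    · exact ⟨1, mul_one _⟩
    · exact ⟨2, mul_one _⟩
    · exact ⟨3, mul_one _⟩
  · right; fin_cases a
    · exact ⟨4, rfl⟩
    · exact ⟨5, mul_comm _ _⟩
    · exact ⟨6, mul_comm _ _⟩
  · right; fin_cases a
    · exact ⟨5, rfl⟩
    · exact ⟨7, rfl⟩
    · exact ⟨8, mul_comm _ _⟩
  · right; fin_cases a
    · exact ⟨6, rfl⟩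
    · exact ⟨8, rfl⟩
    · exact ⟨9, rfl⟩
  all_goals exact Or.inl (h4 _ _ _)

/-- A three by three minor. -/
def minor {Λ : Type*} [CommRing Λ] (E : Fin 5 → Fin 5 → Λ) (i₁ i₂ i₃ j₁ j₂ j₃ : Fin 5) : Λ :=
  E i₁ j₁ * E i₂ j₂ * E i₃ j₃ - E i₁ j₁ * E i₂ j₃ * E i₃ j₂ - E i₁ j₂ * E i₂ j₁ * E i₃ j₃
    + E i₁ j₂ * E i₂ j₃ * E i₃ j₁ + E i₁ j₃ * E i₂ j₁ * E i₃ j₂ - E i₁ j₃ * E i₂ j₂ * E i₃ j₁

theorem cubes {Λ : Type*} [CommRing Λ] [Algebra ℚ Λ] (h : Fin 3 → Λ) (E : Fin 5 → Fin 5 → Λ)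
    (hE : ∀ i j, E i j = (nE i j 0 : Λ) * h 0 + (nE i j 1 : Λ) * h 1 + (nE i j 2 : Λ) * h 2)
    (hm : ∀ i₁ i₂ i₃ j₁ j₂ j₃, minor E i₁ i₂ i₃ j₁ j₂ j₃ = 0) :
    ∀ a b c, h a * h b * h c = 0 := by
  have h8 : ∀ u : Λ, 8 * u = 0 → u = 0 := by
    intro u hu
    have h1 : algebraMap ℚ Λ (1 / 8) * 8 = 1 := by
      rw [show (8 : Λ) = algebraMap ℚ Λ 8 from (map_ofNat _ 8).symm, ← map_mul]; norm_num
    rw [← one_mul u, ← h1, mul_assoc, hu, mul_zero]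
  have e00 : E 0 0 = ((0 : ℤ) : Λ) * h 0 + ((0 : ℤ) : Λ) * h 1 + ((0 : ℤ) : Λ) * h 2 :=
    hE 0 0
  have e01 : E 0 1 = ((-1 : ℤ) : Λ) * h 0 + ((2 : ℤ) : Λ) * h 1 + ((0 : ℤ) : Λ) * h 2 :=
    hE 0 1
  have e02 : E 0 2 = ((1 : ℤ) : Λ) * h 0 + ((-1 : ℤ) : Λ) * h 1 + ((2 : ℤ) : Λ) * h 2 :=
    hE 0 2
  have e03 : E 0 3 = ((1 : ℤ) : Λ) * h 0 + ((0 : ℤ) : Λ) * h 1 + ((-1 : ℤ) : Λ) * h 2 :=
    hE 0 3
  have e04 : E 0 4 = ((-1 : ℤ) : Λ) * h 0 + ((-1 : ℤ) : Λ) * h 1 + ((-1 : ℤ) : Λ) * h 2 :=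
    hE 0 4
  have e10 : E 1 0 = ((-1 : ℤ) : Λ) * h 0 + ((2 : ℤ) : Λ) * h 1 + ((0 : ℤ) : Λ) * h 2 :=
    hE 1 0
  have e11 : E 1 1 = ((0 : ℤ) : Λ) * h 0 + ((0 : ℤ) : Λ) * h 1 + ((0 : ℤ) : Λ) * h 2 :=
    hE 1 1
  have e12 : E 1 2 = ((0 : ℤ) : Λ) * h 0 + ((-1 : ℤ) : Λ) * h 1 + ((-1 : ℤ) : Λ) * h 2 :=
    hE 1 2
  have e13 : E 1 3 = ((0 : ℤ) : Λ) * h 0 + ((-1 : ℤ) : Λ) * h 1 + ((1 : ℤ) : Λ) * h 2 :=
    hE 1 3
  have e14 : E 1 4 = ((1 : ℤ) : Λ) * h 0 + ((0 : ℤ) : Λ) * h 1 + ((0 : ℤ) : Λ) * h 2 :=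
    hE 1 4
  have e20 : E 2 0 = ((1 : ℤ) : Λ) * h 0 + ((-1 : ℤ) : Λ) * h 1 + ((2 : ℤ) : Λ) * h 2 :=
    hE 2 0
  have e21 : E 2 1 = ((0 : ℤ) : Λ) * h 0 + ((-1 : ℤ) : Λ) * h 1 + ((-1 : ℤ) : Λ) * h 2 :=
    hE 2 1
  have e22 : E 2 2 = ((0 : ℤ) : Λ) * h 0 + ((0 : ℤ) : Λ) * h 1 + ((0 : ℤ) : Λ) * h 2 :=
    hE 2 2
  have e23 : E 2 3 = ((-1 : ℤ) : Λ) * h 0 + ((1 : ℤ) : Λ) * h 1 + ((-1 : ℤ) : Λ) * h 2 :=
    hE 2 3
  have e24 : E 2 4 = ((0 : ℤ) : Λ) * h 0 + ((1 : ℤ) : Λ) * h 1 + ((0 : ℤ) : Λ) * h 2 :=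
    hE 2 4
  have e30 : E 3 0 = ((1 : ℤ) : Λ) * h 0 + ((0 : ℤ) : Λ) * h 1 + ((-1 : ℤ) : Λ) * h 2 :=
    hE 3 0
  have e31 : E 3 1 = ((0 : ℤ) : Λ) * h 0 + ((-1 : ℤ) : Λ) * h 1 + ((1 : ℤ) : Λ) * h 2 :=
    hE 3 1
  have e32 : E 3 2 = ((-1 : ℤ) : Λ) * h 0 + ((1 : ℤ) : Λ) * h 1 + ((-1 : ℤ) : Λ) * h 2 :=
    hE 3 2
  have e33 : E 3 3 = ((0 : ℤ) : Λ) * h 0 + ((0 : ℤ) : Λ) * h 1 + ((0 : ℤ) : Λ) * h 2 :=
    hE 3 3
  have e34 : E 3 4 = ((0 : ℤ) : Λ) * h 0 + ((0 : ℤ) : Λ) * h 1 + ((1 : ℤ) : Λ) * h 2 :=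
    hE 3 4
  have e40 : E 4 0 = ((-1 : ℤ) : Λ) * h 0 + ((-1 : ℤ) : Λ) * h 1 + ((-1 : ℤ) : Λ) * h 2 :=
    hE 4 0
  have e41 : E 4 1 = ((1 : ℤ) : Λ) * h 0 + ((0 : ℤ) : Λ) * h 1 + ((0 : ℤ) : Λ) * h 2 :=
    hE 4 1
  have e42 : E 4 2 = ((0 : ℤ) : Λ) * h 0 + ((1 : ℤ) : Λ) * h 1 + ((0 : ℤ) : Λ) * h 2 :=
    hE 4 2
  have e43 : E 4 3 = ((0 : ℤ) : Λ) * h 0 + ((0 : ℤ) : Λ) * h 1 + ((1 : ℤ) : Λ) * h 2 :=
    hE 4 3
  have e44 : E 4 4 = ((0 : ℤ) : Λ) * h 0 + ((0 : ℤ) : Λ) * h 1 + ((0 : ℤ) : Λ) * h 2 :=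
    hE 4 4
  have m0 := hm 1 2 4 1 2 4
  have m1 := hm 2 3 4 2 3 4
  have m2 := hm 0 2 4 0 3 4
  have m3 := hm 0 1 4 1 3 4
  have m4 := hm 0 2 3 1 2 4
  have m5 := hm 1 3 4 2 3 4
  have m6 := hm 0 1 3 0 3 4
  have m7 := hm 0 2 3 1 3 4
  have m8 := hm 0 1 2 0 1 3
  have m9 := hm 0 1 4 1 2 4
  simp only [minor, e00, e01, e02, e03, e04, e10, e11, e12, e13, e14, e20, e21, e22, e23, e24, e30, e31, e32, e33, e34, e40, e41, e42, e43, e44] at m0 m1 m2 m3 m4 m5 m6 m7 m8 m9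
  push_cast at m0 m1 m2 m3 m4 m5 m6 m7 m8 m9
  have c222 : h 2 * h 2 * h 2 = 0 := h8 _ (by
    linear_combination (1) * m0 + (6) * m1 + (4) * m2 + (1) * m3 + (2) * m4 + (4) * m5 + (-2) * m6 + (-2) * m7 + (-1) * m8 + (-2) * m9)
  have c122 : h 1 * h 2 * h 2 = 0 := h8 _ (by
    linear_combination (2) * m0 + (2) * m1 + (2) * m2 + (-2) * m3 + (2) * m6 + (-2) * m7 + (-2) * m9)
  have c112 : h 1 * h 1 * h 2 = 0 := h8 _ (by
    linear_combination (1) * m0 + (6) * m1 + (4) * m2 + (-3) * m3 + (2) * m4 + (2) * m6 + (-2) * m7 + (-1) * m8 + (-2) * m9)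
  have c111 : h 1 * h 1 * h 1 = 0 := h8 _ (by
    linear_combination (-4) * m0 + (6) * m1 + (2) * m2 + (-8) * m3 + (-4) * m5 + (6) * m6 + (-6) * m7 + (-2) * m8 + (2) * m9)
  have c022 : h 0 * h 2 * h 2 = 0 := h8 _ (by
    linear_combination (3) * m0 + (2) * m2 + (3) * m3 + (2) * m4 + (-1) * m8 + (-4) * m9)
  have c012 : h 0 * h 1 * h 2 = 0 := h8 _ (by
    linear_combination (-1) * m0 + (2) * m2 + (-1) * m3 + (2) * m4 + (-1) * m8)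
  have c011 : h 0 * h 1 * h 1 = 0 := h8 _ (by
    linear_combination (-3) * m0 + (-2) * m2 + (1) * m3 + (-2) * m4 + (1) * m8)
  have c002 : h 0 * h 0 * h 2 = 0 := h8 _ (by
    linear_combination (4) * m1 + (4) * m2 + (-4) * m3 + (-4) * m5 + (-4) * m7)
  have c001 : h 0 * h 0 * h 1 = 0 := h8 _ (by
    linear_combination (-2) * m0 + (-4) * m2 + (2) * m3 + (-8) * m4 + (4) * m5 + (2) * m8)
  have c000 : h 0 * h 0 * h 0 = 0 := h8 _ (by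
    linear_combination (-10) * m0 + (-4) * m1 + (-8) * m2 + (10) * m3 + (-8) * m4 + (8) * m5 + (4) * m7 + (2) * m8 + (4) * m9)
  intro a b c
  fin_cases a <;> fin_cases b <;> fin_cases c
  · show h 0 * h 0 * h 0 = 0
    linear_combination c000
  · show h 0 * h 0 * h 1 = 0
    linear_combination c001
  · show h 0 * h 0 * h 2 = 0
    linear_combination c002
  · show h 0 * h 1 * h 0 = 0
    linear_combination c001
  · show h 0 * h 1 * h 1 = 0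
    linear_combination c011
  · show h 0 * h 1 * h 2 = 0
    linear_combination c012
  · show h 0 * h 2 * h 0 = 0
    linear_combination c002
  · show h 0 * h 2 * h 1 = 0
    linear_combination c012
  · show h 0 * h 2 * h 2 = 0
    linear_combination c022
  · show h 1 * h 0 * h 0 = 0
    linear_combination c001
  · show h 1 * h 0 * h 1 = 0
    linear_combination c011
  · show h 1 * h 0 * h 2 = 0
    linear_combination c012
  · show h 1 * h 1 * h 0 = 0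
    linear_combination c011
  · show h 1 * h 1 * h 1 = 0
    linear_combination c111
  · show h 1 * h 1 * h 2 = 0
    linear_combination c112
  · show h 1 * h 2 * h 0 = 0
    linear_combination c012
  · show h 1 * h 2 * h 1 = 0
    linear_combination c112
  · show h 1 * h 2 * h 2 = 0
    linear_combination c122
  · show h 2 * h 0 * h 0 = 0
    linear_combination c002
  · show h 2 * h 0 * h 1 = 0
    linear_combination c012
  · show h 2 * h 0 * h 2 = 0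
    linear_combination c022
  · show h 2 * h 1 * h 0 = 0
    linear_combination c012
  · show h 2 * h 1 * h 1 = 0
    linear_combination c112
  · show h 2 * h 1 * h 2 = 0
    linear_combination c122
  · show h 2 * h 2 * h 0 = 0
    linear_combination c022
  · show h 2 * h 2 * h 1 = 0
    linear_combination c122
  · show h 2 * h 2 * h 2 = 0
    linear_combination c222

end Pool.Agent.P.MP_72aa19_al
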